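import Pool.Agent.J6H65.ST.Rsd
import Pool.Agent.Y713.TG.Val

/-!
Transfer of valuations from `k'(t)` to `k(t)`.
-/

set_option autoImplicit false
set_option linter.all false

open Polynomial IsDedekindDomain

namespace Pool.Agent.J6H65.ST

open Pool.Agent.Y713.SE Pool.Agent.Y713.SE.Dat

section rp
variable {k K : Type} [Field k] [Field K] [Algebra k[X] K] [IsFractionRing k[X] K]

theorem exists_pow_mul {π : k[X]} (hπ : Irreducible π) {r : k[X]} (hr : r ≠ 0) :
    ∃ (a : ℕ) (r' : k[X]), ¬ π ∣ r' ∧ r = π ^ a * r' := by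
  have hfin : FiniteMultiplicity π r := FiniteMultiplicity.of_not_isUnit hπ.not_isUnit hr
  obtain ⟨c, hc, h⟩ := hfin.exists_eq_pow_mul_and_not_dvd
  exact ⟨_, c, h, hc⟩

theorem exists_vrep {π : k[X]} (hπ : Irreducible π) {x : K} (hx : x ≠ 0) :
    ∃ (a b : ℕ) (r s : k[X]), ¬ π ∣ r ∧ ¬ π ∣ s ∧
      x * algebraMap k[X] K (π ^ b * s) = algebraMap k[X] K (π ^ a * r) := by
  obtain ⟨n, d, hd, rfl⟩ := IsFractionRing.div_surjective (A := k[X]) x
  have hd0 : d ≠ 0 := nonZeroDivisors.ne_zero hd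
  have hn0 : n ≠ 0 := by rintro rfl; simp at hx
  obtain ⟨a, r, hr, rfl⟩ := exists_pow_mul hπ hn0
  obtain ⟨b, s, hs, rfl⟩ := exists_pow_mul hπ hd0
  refine ⟨a, b, r, s, hr, hs, ?_⟩
  rw [div_mul_cancel₀]
  simpa using hd0

end rp

section tr
variable {k k' K F : Type} [Field k] [Field k'] [Algebra k k']
  [Field K] [Algebra k[X] K] [IsFractionRing k[X] K] [Field F] [Algebra k'[X] F]
  [IsFractionRing k'[X] F] [Algebra K F]
  (hKF : ∀ p : k[X], algebraMap K F (algebraMap k[X] K p) =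
    algebraMap k'[X] F (p.map (algebraMap k k')))

theorem not_mem_above {π : k[X]} (hπ : Irreducible π) {w : HeightOneSpectrum k'[X]}
    (hw : π.map (algebraMap k k') ∈ w.asIdeal) {r : k[X]} (hr : ¬ π ∣ r) :
    r.map (algebraMap k k') ∉ w.asIdeal := by
  intro h
  have hcop : IsCoprime π r := (hπ.coprime_iff_not_dvd).2 hr
  obtain ⟨a, b, hab⟩ := hcop
  apply w.isPrime.ne_top
  rw [Ideal.eq_top_iff_one]
  have e : (1 : k'[X]) = a.map (algebraMap k k') * π.map (algebraMap k k') +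
      b.map (algebraMap k k') * r.map (algebraMap k k') := by
    rw [← Polynomial.map_mul, ← Polynomial.map_mul, ← Polynomial.map_add, hab,
      Polynomial.map_one]
  rw [e]
  exact w.asIdeal.add_mem (w.asIdeal.mul_mem_left _ hw) (w.asIdeal.mul_mem_left _ h)

include hKF in
theorem exists_ab {π : k[X]} (hπ : Irreducible π) {w : HeightOneSpectrum k'[X]}
    (hw : π.map (algebraMap k k') ∈ w.asIdeal) {x : K} (hx : x ≠ 0) :
    ∃ a b : ℕ, w.valuation F (algebraMap K F x) *
        (w.valuation F (algebraMap k'[X] F (π.map (algebraMap k k')))) ^ b =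
        (w.valuation F (algebraMap k'[X] F (π.map (algebraMap k k')))) ^ a ∧
      (hp π hπ).valuation K x * (WithZero.exp (-1 : ℤ)) ^ b = (WithZero.exp (-1 : ℤ)) ^ a := by
  obtain ⟨a, b, r, s, hr, hs, e⟩ := exists_vrep (K := K) hπ hx
  refine ⟨a, b, ?_, ?_⟩
  · have h1 := congrArg (fun y => w.valuation F (algebraMap K F y)) e
    simp only [map_mul, map_pow] at h1
    rw [hKF, hKF, hKF] at h1
    rw [(val_eq_one_iff w _).2 (not_mem_above hπ hw hs),
      (val_eq_one_iff w _).2 (not_mem_above hπ hw hr), mul_one, mul_one] at h1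
    exact h1
  · have h1 := congrArg (fun y => (hp π hπ).valuation K y) e
    simp only [map_mul, map_pow] at h1
    rw [val_hp_self, (val_eq_one_iff _ _).2 (fun h => hs ((mem_hp hπ _).1 h)),
      (val_eq_one_iff _ _).2 (fun h => hr ((mem_hp hπ _).1 h)), mul_one, mul_one] at h1
    exact h1

include hKF in
theorem one_above {π : k[X]} (hπ : Irreducible π) {w : HeightOneSpectrum k'[X]}
    (hw : π.map (algebraMap k k') ∈ w.asIdeal) {x : K} (hx : x ≠ 0)
    (h : (hp π hπ).valuation K x = 1) : w.valuation F (algebraMap K F x) = 1 := by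
  obtain ⟨a, b, e1, e2⟩ := exists_ab (F := F) hKF hπ hw hx
  rw [h, one_mul, ← WithZero.exp_nsmul, ← WithZero.exp_nsmul] at e2
  have e3 := WithZero.exp_injective e2
  have e4 : a = b := by
    simp at e3; exact e3.symm
  subst e4
  have h0 : w.valuation F (algebraMap k'[X] F (π.map (algebraMap k k'))) ≠ 0 := by
    rw [Valuation.ne_zero_iff]
    simpa using (Polynomial.map_ne_zero_iff (algebraMap k k').injective).2 hπ.ne_zero
  exact (mul_eq_right₀ (pow_ne_zero _ h0)).1 e1

include hKF in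
theorem pw_above {ℓ : ℕ} (hℓ : ℓ.Prime) {π : k[X]} (hπ : Irreducible π)
    {w : HeightOneSpectrum k'[X]}
    (hw : ¬ Pw ℓ (w.valuation F (algebraMap k'[X] F (π.map (algebraMap k k')))))
    {x : K} (hx : x ≠ 0)
    (h : Pw ℓ (w.valuation F (algebraMap K F x))) : Pw ℓ ((hp π hπ).valuation K x) := by
  have hwm : π.map (algebraMap k k') ∈ w.asIdeal := by
    by_contra hne
    rw [(val_eq_one_iff w _).2 hne] at hw
    exact hw Pw.one
  obtain ⟨a, b, e1, e2⟩ := exists_ab (F := F) hKF hπ hwm hx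
  have h0 : w.valuation F (algebraMap k'[X] F (π.map (algebraMap k k'))) ≠ 0 := by
    rw [Valuation.ne_zero_iff]
    simpa using (Polynomial.map_ne_zero_iff (algebraMap k k').injective).2 hπ.ne_zero
  have hx0 : w.valuation F (algebraMap K F x) ≠ 0 :=
    (Valuation.ne_zero_iff _).2 ((_root_.map_ne_zero _).2 hx)
  have hx1 : (hp π hπ).valuation K x ≠ 0 := (Valuation.ne_zero_iff _).2 hx
  have hE : (WithZero.exp (-1 : ℤ)) ≠ 0 := WithZero.exp_ne_zero
  haveI := Fact.mk hℓ
  have e3 := congrArg (lg ℓ) e1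
  rw [lg_mul hx0 (pow_ne_zero _ h0), lg_pow, lg_pow, (lg_eq_zero hx0).2 h, zero_add] at e3
  have hl0 : lg ℓ (w.valuation F (algebraMap k'[X] F (π.map (algebraMap k k')))) ≠ 0 :=
    fun h' => hw ((lg_eq_zero h0).1 h')
  have e4 : (b : ZMod ℓ) = a := mul_right_cancel₀ hl0 e3
  have e5 := congrArg (lg ℓ) e2
  rw [lg_mul hx1 (pow_ne_zero _ hE), lg_pow, lg_pow, e4] at e5
  exact (lg_eq_zero hx1).1 (by simpa using e5)

end tr

section ex
variable {k k' F : Type} [Field k] [Field k'] [Algebra k k'] [IsSepClosure k k']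
  [Field F] [Algebra k'[X] F] [IsFractionRing k'[X] F]

theorem monic_pow_inj {E : Type} [Field E] {ℓ : ℕ} (hℓ : ℓ ≠ 0) {p q : E[X]} (hp : p.Monic)
    (hq : q.Monic) (h : p ^ ℓ = q ^ ℓ) : p = q := by
  refine eq_of_monic_of_associated hp hq (associated_of_dvd_dvd ?_ ?_)
  · exact (IsIntegrallyClosed.pow_dvd_pow_iff hℓ).1 h.dvd
  · exact (IsIntegrallyClosed.pow_dvd_pow_iff hℓ).1 h.symm.dvd

/-- there is a place above `π` with ramification index prime to `ℓ` -/
theorem exists_above {ℓ : ℕ} (hpr : ℓ.Prime) (hℓ : (ℓ : k') ≠ 0) {π : k[X]} (hπ : Irreducible π)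
    (hπm : π.Monic) : ∃ w : HeightOneSpectrum k'[X],
      ¬ Pw ℓ (w.valuation F (algebraMap k'[X] F (π.map (algebraMap k k')))) := by
  haveI : IsSepClosed k' := IsSepClosure.sep_closed k
  by_contra hcon
  push Not at hcon
  have hπ0 : π.map (algebraMap k k') ≠ 0 :=
    (Polynomial.map_ne_zero_iff (algebraMap k k').injective).2 hπ.ne_zero
  have hx : algebraMap k'[X] F (π.map (algebraMap k k')) ≠ 0 := by simpa using hπ0
  obtain ⟨y, hy0, hy⟩ := pow_of_ov (k' := k') (F := F) hpr hℓ hx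
    (fun v => (ov_eq_zero hx).2 (hcon v))
  obtain ⟨G, hG⟩ := IsIntegrallyClosed.exists_algebraMap_eq_of_isIntegral_pow (R := k'[X]) (K := F)
    (x := y) hpr.pos (by rw [← hy]; exact isIntegral_algebraMap)
  have hG1 : G ^ ℓ = π.map (algebraMap k k') := by
    apply IsFractionRing.injective k'[X] F
    rw [map_pow, hG, hy]
  have hG0 : G ≠ 0 := by
    rintro rfl
    rw [zero_pow hpr.ne_zero] at hG1
    exact hπ0 hG1.symm
  have hl : G.leadingCoeff ^ ℓ = 1 := by
    rw [← leadingCoeff_pow, hG1]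
    exact (hπm.map _).leadingCoeff
  obtain ⟨H, hHdef⟩ : ∃ H, H = G * C G.leadingCoeff⁻¹ := ⟨_, rfl⟩
  have hHm : H.Monic := by rw [hHdef]; exact monic_mul_leadingCoeff_inv hG0
  have hH : H ^ ℓ = π.map (algebraMap k k') := by
    rw [hHdef, mul_pow, hG1, ← C_pow, inv_pow, hl, inv_one, C_1, mul_one]
  haveI : IsGalois k k' := inferInstance
  have hfix : ∀ s : k' ≃ₐ[k] k', H.map (s : k' →+* k') = H := by
    intro s
    apply monic_pow_inj hpr.ne_zero (hHm.map _) hHm
    rw [← Polynomial.map_pow, hH, Polynomial.map_map]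
    congr 1
    ext x
    exact s.commutes x
  have hlift : H ∈ Polynomial.lifts (algebraMap k k') := by
    rw [Polynomial.lifts_iff_coeff_lifts]
    intro i
    rw [InfiniteGalois.mem_range_algebraMap_iff_fixed]
    intro s
    have := congrArg (fun p : k'[X] => p.coeff i) (hfix s)
    simp only [coeff_map] at this
    exact this
  obtain ⟨H0, hH0⟩ := (Polynomial.mem_lifts _).1 hlift
  have h1 : H0 ^ ℓ = π := by
    apply Polynomial.map_injective (algebraMap k k') (algebraMap k k').injective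
    rw [Polynomial.map_pow, hH0, hH]
  exact not_irreducible_pow hpr.ne_one (h1 ▸ hπ)

end ex

end Pool.Agent.J6H65.ST
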