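import Pool.Agent.Y713.TG.Pla
import Pool.Agent.J6H65.ST.Trf

/-!
Good places of `k'(t)`.
-/

set_option autoImplicit false
set_option linter.all false

open Polynomial IsDedekindDomain

namespace Pool.Agent.J6H65.ST

open Pool.Agent.Y713.SE Pool.Agent.Y713.SE.Dat
open Pool.Agent.TH115.GD (pl Preserves Comp Sep)

section place

variable {ℓ n : ℕ} {K : Type} [Field K] (D : Dat ℓ n K)
variable {R F : Type} [CommRing R] [IsDedekindDomain R] [Field F] [Algebra R F]
  [IsFractionRing R F] [Algebra K F]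
variable {Ω : Type} [Field Ω] [Algebra K Ω] [Algebra F Ω] [IsScalarTower K F Ω]
variable {v : HeightOneSpectrum R} [Algebra K (v.adicCompletion F)]
  [IsScalarTower K F (v.adicCompletion F)]
variable {Ω' : Type} [Field Ω'] [Algebra (v.adicCompletion F) Ω'] [Algebra F Ω'] [Algebra K Ω']
  [IsScalarTower F (v.adicCompletion F) Ω'] [IsScalarTower K (v.adicCompletion F) Ω']
  [IsScalarTower K F Ω'] [IsSepClosed Ω'] [IsGalois (v.adicCompletion F) Ω']

theorem good_placeF0 [IsGalois F Ω] {p : ℕ} [ExpChar Ω' p]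
    (hδ : v.valuation F (algebraMap K F D.δ) = 1)
    (hv : ∀ i j, i ≠ j → v.valuation F (algebraMap K F (D.e i - D.e j)) = 1)
    (hℓ : v.valuation F (ℓ : F) = 1) {χ : (Ω ≃ₐ[F] Ω) → Fin n → ℕ}
    (ht : D.TrivF (v.adicCompletion F) Ω' (fun σ => cl ((D.base Ω).PT (χ σ))))
    (kd : D.KF χ) (i j : Fin n) : Pw ℓ (v.valuation F (kd.d i j)) := by
  obtain ⟨S, hS⟩ := exists_LSv v ℓ Ω' hℓ
  replace hS : Cpt S := hS
  obtain ⟨ι, P, hP⟩ := ht
  obtain ⟨χv, h1, h2⟩ := D.transF hP kd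
  obtain ⟨B, hB, hBinv, hBc⟩ := D.exists_B h1
  have hδ' : S.nrm (D.base Ω').δ = 1 := by
    have e : (D.base Ω').δ = algebraMap F Ω' (algebraMap K F D.δ) :=
      IsScalarTower.algebraMap_apply K F Ω' D.δ
    rw [e]
    exact hS.one hδ
  have hone : ∀ i j, i ≠ j → S.nrm ((D.base Ω').e i - (D.base Ω').e j) = 1 := fun i j hij => by
    rw [D.e_subF (F := F)]
    exact hS.one (hv i j hij)
  have hPT : ∀ (i : Fin n) (m : Fin n → ℕ), D.Lam S i ((D.base Ω').PT m) = 1 := by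
    intro i m
    rw [Lam_PT, Finset.prod_eq_one]
    intro k _
    by_cases hk : i = k
    · subst hk
      rw [Lam_PP_self, nrm_ge, hδ', one_mul, Finset.prod_eq_one, inv_one, one_pow]
      intro j hj
      exact hone i j (Finset.ne_of_mem_erase hj).symm
    · rw [D.Lam_PP_ne S hk, hone i k hk, one_pow]
  obtain ⟨μ, g, m, hμ, hg, hL⟩ := D.tame1 S (p := p) hone hB hBinv
  have hL' : ∀ i, D.Lam S i B = μ * g i ^ ℓ * D.Lam S i ((D.base Ω').PT (fun _ => 0)) := by
    intro i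
    rw [hL, hPT, hPT]
  have hcl : cl B * (D.base Ω').sC P = cl ((D.base Ω').PT (fun _ => 0)) * P := by
    rw [hBc, cl_PT]; simp
  have hθ0 : ι (kd.θ i j) ≠ 0 := (_root_.map_ne_zero _).2 (kd.h0 i j)
  obtain ⟨x, hx, hxθ⟩ := D.gam_of S h1 hθ0 (fun τ => h2 τ i j) hB hBinv hcl hμ hg hL'
  have h3 : S.nrm (algebraMap (v.adicCompletion F) Ω' (algebraMap F (v.adicCompletion F)
      (kd.d i j))) = S.nrm (algebraMap (v.adicCompletion F) Ω' x) ^ ℓ := by
    rw [hxθ, ← map_pow, ← map_pow, kd.hd, AlgHom.commutes, ← IsScalarTower.algebraMap_apply]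
  exact hS.pw rfl h3

end place

section comp
variable {ℓ n : ℕ} {k' K F Ω : Type} [Field k']
  [Field K] [Field F] [Algebra k'[X] F]
  [IsFractionRing k'[X] F] [Algebra K F] [Field Ω] [Algebra F Ω] [Algebra K Ω]
  [IsScalarTower K F Ω] [IsGalois F Ω]
  (D : Dat ℓ n K)

theorem good_placeF (hℓ : (ℓ : k') ≠ 0) {χ : (Ω ≃ₐ[F] Ω) → Fin n → ℕ} (kd : D.KF χ)
    (v : HeightOneSpectrum k'[X])
    (hδ : v.valuation F (algebraMap K F D.δ) = 1)
    (hv : ∀ i j, i ≠ j → v.valuation F (algebraMap K F (D.e i - D.e j)) = 1)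
    (ht : D.TrivF (Comp k'[X] F v) (Sep (Comp k'[X] F v))
      (fun σ => cl ((D.base Ω).PT (χ σ)))) (i j : Fin n) : Pw ℓ (v.valuation F (kd.d i j)) := by
  letI i1 : Algebra K (v.adicCompletion F) := (inferInstance : Algebra K (Comp k'[X] F v))
  haveI i2 : IsScalarTower K F (v.adicCompletion F) :=
    (inferInstance : IsScalarTower K F (Comp k'[X] F v))
  letI i3 : Algebra (v.adicCompletion F) (Sep (Comp k'[X] F v)) :=
    (inferInstance : Algebra (Comp k'[X] F v) (Sep (Comp k'[X] F v)))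
  haveI i4 : IsScalarTower F (v.adicCompletion F) (Sep (Comp k'[X] F v)) :=
    (inferInstance : IsScalarTower F (Comp k'[X] F v) (Sep (Comp k'[X] F v)))
  haveI i5 : IsScalarTower K (v.adicCompletion F) (Sep (Comp k'[X] F v)) :=
    (inferInstance : IsScalarTower K (Comp k'[X] F v) (Sep (Comp k'[X] F v)))
  haveI i6 : IsGalois (v.adicCompletion F) (Sep (Comp k'[X] F v)) :=
    (inferInstance : IsGalois (Comp k'[X] F v) (Sep (Comp k'[X] F v)))
  obtain ⟨p, hp⟩ := ExpChar.exists (Sep (Comp k'[X] F v))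
  haveI := hp
  exact good_placeF0 (D := D) (p := p) (v := v) (Ω' := Sep (Comp k'[X] F v)) hδ hv
    (val_nat (F := F) hℓ v) ht kd i j

/-- the Kummer data over `F` of a cocycle over `K` -/
theorem exists_resKD {χ : (Ω ≃ₐ[K] Ω) → Fin n → ℕ} (kd : D.KD χ) :
    ∃ kf : D.KF (F := F) (fun σ : Ω ≃ₐ[F] Ω => χ (σ.restrictScalars K)),
      ∀ i j, kf.d i j = algebraMap K F (kd.d i j) := by
  refine ⟨⟨kd.θ, fun i j => algebraMap K F (kd.d i j), kd.h0, fun σ i j => ?_, fun i j => ?_⟩,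
    fun i j => rfl⟩
  · exact kd.hθ (σ.restrictScalars K) i j
  · rw [kd.hd, IsScalarTower.algebraMap_apply K F Ω]

end comp

end Pool.Agent.J6H65.ST
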