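import Pool.Agent.J6H65.ST.Lft
import Pool.Agent.R431.SG.Crit

/-!
The arithmetic of the twisting polynomial, with a place of `k'(t)` instead of the completion of
`k(t)`.
-/

set_option autoImplicit false
set_option linter.all false

open Polynomial IsDedekindDomain

namespace Pool.Agent.J6H65.ST

open Pool.Agent.Y713.SE Pool.Agent.Y713.SE.Dat
open Pool.Agent.TH115.GD (pl Preserves Comp Sep exists_conj lift restr preserves val_poly)

section
variable {k k' K F : Type} [Field k] [Field k'] [Algebra k k'] [IsSepClosure k k']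
  [Field K] [Algebra k[X] K] [IsFractionRing k[X] K] [Field F] [Algebra k'[X] F]
  [IsFractionRing k'[X] F] [Algebra K F]

/-- the element `x` of the completion is fixed by (the extensions of) the automorphisms of the
constants which fix `θ` -/
def FixD (F : Type) [Field F] [Algebra k'[X] F] [IsFractionRing k'[X] F] (k : Type) [Field k]
    [Algebra k k'] [IsSepClosure k k'] (θ : k') (x : (pl θ).adicCompletion F) : Prop :=
  ∀ s : k' ≃ₐ[k] k', s θ = θ → ∃ g : (pl θ).adicCompletion F ≃+* (pl θ).adicCompletion F,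
    (∀ y : F, g (algebraMap F _ y) = algebraMap F _ (eF F s y)) ∧
    (∀ z : (pl θ).adicCompletion F, (Valued.v z : WithZero (Multiplicative ℤ)) < 1 →
      (Valued.v (g z) : WithZero (Multiplicative ℤ)) < 1) ∧ g x = x

theorem val_pl_iff {θ : k'} (p : k'[X]) :
    (pl θ).valuation F (algebraMap k'[X] F p) < 1 ↔ p.eval θ = 0 := by
  rw [(pl θ).valuation_lt_one_iff_mem]
  show p ∈ Ideal.span {X - C θ} ↔ _
  rw [Ideal.mem_span_singleton, dvd_iff_isRoot, IsRoot.def]

theorem res_fix {ℓ : ℕ} (hℓ : ℓ ≠ 0) {D : k[X]} (hD : Irreducible D) {θ : k'}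
    (hθ : aeval θ D = 0) {r : k[X]} {x : (pl θ).adicCompletion F}
    (hx : algebraMap F ((pl θ).adicCompletion F)
      (algebraMap k'[X] F (r.map (algebraMap k k'))) = x ^ ℓ)
    (hfix : FixD F k θ x) : ∃ q : k[X], D ∣ r - q ^ ℓ := by
  set V : Valuation ((pl θ).adicCompletion F) (WithZero (Multiplicative ℤ)) := Valued.v with hV
  -- `x` is integral
  have hx1 : V x ≤ 1 := by
    have h1 : V (x ^ ℓ) ≤ 1 := by
      rw [← hx, hV, val_coe]
      exact (pl θ).valuation_le_one _
    rw [map_pow] at h1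
    exact (pow_le_one_iff hℓ).1 h1
  -- approximation by an element of `F`
  have hop : IsOpen {y : (pl θ).adicCompletion F | V (x - y) < 1} := by
    have hop : IsOpen {x : (pl θ).adicCompletion F | V x < 1} := by
      have h1 := Valued.isOpen_ball (R := (pl θ).adicCompletion F)
        (Γ₀ := WithZero (Multiplicative ℤ)) 1
      convert h1 using 3 with x
      exact (Valuation.restrict_lt_one_iff _).symm
    exact hop.preimage (continuous_const.sub continuous_id)
  obtain ⟨y, hy⟩ := (HeightOneSpectrum.denseRange_algebraMap F (pl θ)).exists_mem_open hop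
    ⟨x, by simp⟩
  replace hy : V (x - algebraMap F _ y) < 1 := hy
  have hy1 : (pl θ).valuation F y ≤ 1 := by
    rw [← val_coe (pl θ) y]
    have e : algebraMap F ((pl θ).adicCompletion F) y = x - (x - algebraMap F _ y) := by ring
    rw [e]
    exact (Valuation.map_sub _ _ _).trans (max_le hx1 hy.le)
  obtain ⟨a, ha⟩ := (pl θ).exists_valuation_sub_lt_of_integer hy1 1
  rw [Units.val_one] at ha
  set c : k' := a.eval θ with hc
  have hac : (pl θ).valuation F (algebraMap k'[X] F (a - C c)) < 1 := by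
    rw [val_pl_iff]; simp [hc]
  -- approximation by a constant
  have hxc : V (x - algebraMap F _ (algebraMap k'[X] F (C c))) < 1 := by
    have e : x - algebraMap F _ (algebraMap k'[X] F (C c)) =
        (x - algebraMap F _ y) - algebraMap F _ (algebraMap k'[X] F a - y) +
          algebraMap F _ (algebraMap k'[X] F (a - C c)) := by
      simp only [map_sub]; ring
    rw [e]
    refine lt_of_le_of_lt (Valuation.map_add _ _ _) (max_lt ?_ ?_)
    · refine lt_of_le_of_lt (Valuation.map_sub _ _ _) (max_lt hy ?_)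
      rw [hV, val_coe]
      exact ha
    · rw [hV, val_coe]
      exact hac
  have hcs : ∀ s : k' ≃ₐ[k] k', s θ = θ → s c = c := by
    intro s hs
    obtain ⟨g, h1, h2, h3⟩ := hfix s hs
    have h4 := h2 _ hxc
    rw [map_sub, h3, h1, eF_poly, map_C] at h4
    have h5 : V (algebraMap F _ (algebraMap k'[X] F (C c - C (s c)))) < 1 := by
      have e : algebraMap F ((pl θ).adicCompletion F) (algebraMap k'[X] F (C c - C (s c))) =
          (x - algebraMap F _ (algebraMap k'[X] F (C (s c)))) -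
          (x - algebraMap F _ (algebraMap k'[X] F (C c))) := by
        simp only [map_sub]; ring
      rw [e]
      exact lt_of_le_of_lt (Valuation.map_sub _ _ _) (max_lt h4 hxc)
    rw [hV, val_coe, val_pl_iff] at h5
    simp only [eval_sub, eval_C] at h5
    exact (sub_eq_zero.1 h5).symm
  haveI : IsGalois k k' := inferInstance
  obtain ⟨q, hq⟩ := exists_poly_of_stab hcs
  refine ⟨q, ?_⟩
  have h6 : V (algebraMap F _ (algebraMap k'[X] F (r.map (algebraMap k k') - C c ^ ℓ))) < 1 := by
    have e : algebraMap F ((pl θ).adicCompletion F)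
        (algebraMap k'[X] F (r.map (algebraMap k k') - C c ^ ℓ)) =
        x ^ ℓ - (algebraMap F _ (algebraMap k'[X] F (C c))) ^ ℓ := by
      rw [← hx]; simp only [map_sub, map_pow]
    rw [e, ← Commute.mul_geom_sum₂ (Commute.all _ _), map_mul]
    have h7 : V (∑ i ∈ Finset.range ℓ, x ^ i * algebraMap F ((pl θ).adicCompletion F)
        (algebraMap k'[X] F (C c)) ^ (ℓ - 1 - i)) ≤ 1 := by
      refine Valuation.map_sum_le _ fun i _ => ?_
      rw [map_mul, map_pow, map_pow, hV, val_coe]
      exact mul_le_one' (pow_le_one' hx1 _) (pow_le_one' ((pl θ).valuation_le_one _) _)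
    calc _ ≤ V (x - algebraMap F _ (algebraMap k'[X] F (C c))) * 1 := mul_le_mul_right h7 _
      _ < 1 := by rw [mul_one]; exact hxc
  rw [hV, val_coe, val_pl_iff] at h6
  simp only [eval_sub, eval_map_algebraMap, eval_pow, eval_C] at h6
  have h8 : aeval θ (r - q ^ ℓ) = 0 := by
    rw [map_sub, map_pow, hq, h6]
  have h9 := minpoly.dvd k θ h8
  rw [← minpoly.eq_of_irreducible hD hθ] at h9
  exact (dvd_mul_right _ _).trans h9


variable (hKF : ∀ p : k[X], algebraMap K F (algebraMap k[X] K p) =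
    algebraMap k'[X] F (p.map (algebraMap k k')))

include hKF in
theorem FixD.div {θ : k'} {x : (pl θ).adicCompletion F} (h : FixD F k θ x) (w : K) :
    FixD F k θ (x / algebraMap F _ (algebraMap K F w)) := by
  intro s hs
  obtain ⟨g, h1, h2, h3⟩ := h s hs
  refine ⟨g, h1, h2, ?_⟩
  rw [map_div₀, h3, h1, eF_K hKF]

theorem val_pl_sep {D : k[X]} (hD : Irreducible D) (hDs : D.Separable) {θ : k'}
    (hθ : aeval θ D = 0) : (pl θ).valuation F (algebraMap k'[X] F (D.map (algebraMap k k'))) =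
      WithZero.exp (-1 : ℤ) := by
  have h0 : D.map (algebraMap k k') ≠ 0 :=
    (Polynomial.map_ne_zero_iff (algebraMap k k').injective).2 hD.ne_zero
  rw [val_poly θ h0]
  have h1 : rootMultiplicity θ (D.map (algebraMap k k')) = 1 := by
    apply le_antisymm
    · exact rootMultiplicity_le_one_of_separable hDs.map θ
    · refine (rootMultiplicity_pos h0).2 ?_
      rw [IsRoot.def, eval_map_algebraMap, hθ]
  rw [h1]
  rfl

include hKF in
/-- the arithmetic of the twisting polynomial -/
theorem stab3 {ℓ : ℕ} (hℓ : ℓ.Prime) {D : k[X]} (hD : Irreducible D) (hDs : D.Separable) {θ : k'}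
    (hθ : aeval θ D = 0)
    (hcs : ∀ c : k, (∃ a : k[X], D ∣ C c - a ^ ℓ) → ∃ b : k, c = b ^ ℓ)
    (T : Finset k[X]) (hT : ∀ π ∈ T, Irreducible π ∧ π.Monic) (hDT : ∀ π ∈ T, ¬ D ∣ π)
    (hPD : ∀ (c : k) (a : k[X] → ℕ) (z : k[X]), c ≠ 0 → D ∣ C c * ∏ π ∈ T, π ^ a π - z ^ ℓ →
        ∀ π ∈ T, ℓ ∣ a π)
    {d : K} (hd : d ≠ 0)
    (h : ∀ v : HeightOneSpectrum k[X], (∀ π ∈ T, π ∉ v.asIdeal) → v ≠ hp D hD →
      Pw ℓ (v.valuation K d))
    {x : (pl θ).adicCompletion F} (hx : algebraMap F _ (algebraMap K F d) = x ^ ℓ)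
    (hfix : FixD F k θ x) : ∃ y : K, d = y ^ ℓ := by
  classical
  have hDnT : D ∉ T := fun hm => hDT D hm dvd_rfl
  obtain ⟨c, a, z, hc, hz, e⟩ := rep (K := K) hℓ (insert D T) (fun π hπ => by
      rcases Finset.mem_insert.1 hπ with rfl | h
      · exact hD
      · exact (hT π h).1) hd (fun v hv => by
      refine h v (fun π hπ => hv π (Finset.mem_insert_of_mem hπ)) ?_
      rintro rfl
      exact hv D (Finset.mem_insert_self _ _) ((mem_hp hD D).2 dvd_rfl))
  rw [Finset.prod_insert hDnT] at e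
  set r := C c * ∏ π ∈ T, π ^ a π with hr
  have e' : d = algebraMap k[X] K r * (algebraMap k[X] K D) ^ a D * z ^ ℓ := by
    rw [e, hr]
    simp only [map_mul, map_pow]
    ring
  have hDr : ¬ D ∣ r := by
    rw [hr]
    intro hd
    rcases hD.prime.dvd_or_dvd hd with h1 | h1
    · have h2 := isUnit_of_dvd_unit h1 (Polynomial.isUnit_C.2 (IsUnit.mk0 _ hc))
      exact hD.not_isUnit h2
    · obtain ⟨π, hπ, h2⟩ := (Prime.dvd_finset_prod_iff hD.prime _).1 h1
      exact hDT π hπ (hD.prime.dvd_of_dvd_pow h2)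
  -- the valuation at `θ` of a polynomial prime to `D`
  have hunit : ∀ r : k[X], ¬ D ∣ r →
      (pl θ).valuation F (algebraMap K F (algebraMap k[X] K r)) = 1 := by
    intro r hDr
    rw [hKF]
    refine le_antisymm ((pl θ).valuation_le_one _) (not_lt.1 fun h1 => hDr ?_)
    rw [val_pl_iff, eval_map_algebraMap] at h1
    have h2 := minpoly.dvd k θ h1
    rw [← minpoly.eq_of_irreducible hD hθ] at h2
    exact (dvd_mul_right _ _).trans h2
  have hvD : (pl θ).valuation F (algebraMap K F (algebraMap k[X] K D)) =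
      WithZero.exp (-1 : ℤ) := by
    rw [hKF]; exact val_pl_sep hD hDs hθ
  have hval : (pl θ).valuation F (algebraMap K F d) =
      (WithZero.exp (-1 : ℤ)) ^ a D * ((pl θ).valuation F (algebraMap K F z)) ^ ℓ := by
    rw [e', map_mul, map_mul, map_pow, map_pow, map_mul, map_mul, map_pow, map_pow, hunit r hDr,
      one_mul, hvD]
  have hpw : Pw ℓ ((pl θ).valuation F (algebraMap K F d)) := by
    refine ⟨Valued.v x, ?_⟩
    rw [← val_coe, hx, map_pow]
  have hvz : (pl θ).valuation F (algebraMap K F z) ≠ 0 :=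
    (Valuation.ne_zero_iff _).2 ((_root_.map_ne_zero _).2 hz)
  obtain ⟨b, hb⟩ : ℓ ∣ a D := by
    apply pw_exp_pow hℓ
    rw [hval] at hpw
    have := hpw.mul (Pw.pow (ℓ := ℓ) ((pl θ).valuation F (algebraMap K F z))).inv
    rwa [mul_assoc, mul_inv_cancel₀ (pow_ne_zero _ hvz), mul_one] at this
  have hDK : algebraMap k[X] K D ≠ 0 := by simpa using hD.ne_zero
  set w : K := (algebraMap k[X] K D) ^ b * z with hw
  have hw0 : w ≠ 0 := mul_ne_zero (pow_ne_zero _ hDK) hz
  have e2 : d = algebraMap k[X] K r * w ^ ℓ := by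
    rw [e', hb, hw, mul_pow, ← pow_mul, mul_comm b ℓ]; ring
  have hdivx : ∀ (r : k[X]) (w : K) (d : K) (x : (pl θ).adicCompletion F), w ≠ 0 →
      d = algebraMap k[X] K r * w ^ ℓ → algebraMap F _ (algebraMap K F d) = x ^ ℓ →
      algebraMap F ((pl θ).adicCompletion F) (algebraMap k'[X] F (r.map (algebraMap k k'))) =
        (x / algebraMap F _ (algebraMap K F w)) ^ ℓ := by
    intro r w d x hw hd hx
    rw [div_pow, ← hx, hd, ← hKF]
    simp only [map_mul, map_pow]
    rw [mul_div_cancel_right₀]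
    exact pow_ne_zero _ ((_root_.map_ne_zero _).2 ((_root_.map_ne_zero _).2 hw))
  have hx1 := hdivx r w d x hw0 e2 hx
  have hfix1 := hfix.div hKF w
  obtain ⟨z', hz'⟩ := res_fix hℓ.ne_zero hD hθ hx1 hfix1
  have hdiv := hPD c a z' hc hz'
  have hr2 : r = C c * (∏ π ∈ T, π ^ (a π / ℓ)) ^ ℓ := by
    rw [hr, ← Finset.prod_pow]
    congr 1
    refine Finset.prod_congr rfl fun π hπ => ?_
    rw [← pow_mul, Nat.div_mul_cancel (hdiv π hπ)]
  set s := ∏ π ∈ T, π ^ (a π / ℓ) with hs
  have hs0 : s ≠ 0 := Finset.prod_ne_zero_iff.2 fun π hπ => pow_ne_zero _ (hT π hπ).1.ne_zero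
  have hsK : algebraMap k[X] K s ≠ 0 := by simpa using hs0
  have e3 : d = algebraMap k[X] K (C c) * (algebraMap k[X] K s * w) ^ ℓ := by
    rw [e2, hr2, map_mul, map_pow]; ring
  have hx2 := hdivx (C c) _ d x (mul_ne_zero hsK hw0) e3 hx
  have hfix2 := hfix.div hKF (algebraMap k[X] K s * w)
  obtain ⟨a', ha'⟩ := res_fix hℓ.ne_zero hD hθ hx2 hfix2
  obtain ⟨b', hb'⟩ := hcs c ⟨a', ha'⟩
  refine ⟨algebraMap k[X] K (C b') * (algebraMap k[X] K s * w), ?_⟩
  rw [e3, hb', mul_pow (algebraMap k[X] K (C b')), ← map_pow (algebraMap k[X] K) (C b'), ← C_pow]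

end

end Pool.Agent.J6H65.ST
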