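import Pool.Agent.J6H65.ST.Fth
import Pool.Agent.J6H65.ST.Gpl
import Pool.Agent.J6H65.ST.Rsd

/-!
The first layer of an invariant locally trivial class on a twist.
-/

set_option autoImplicit false
set_option linter.all false

open Polynomial IsDedekindDomain

namespace Pool.Agent.J6H65.ST

open Pool.Agent.Y713.SE Pool.Agent.Y713.SE.Dat
open Pool.Agent.TH115.GD (pl Preserves Comp Sep exists_conj lift restr preserves val_poly
  exists_restrict)
open scoped Topology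

section
variable {ℓ n : ℕ} {K F Ω : Type} [Field K] [Field F] [Algebra K F] [Field Ω] [Algebra F Ω]
  [Algebra K Ω] [IsScalarTower K F Ω] {D : Dat ℓ n K}

theorem TrivF.phi' {E Ω' : Type} [Field E] [Algebra K E] [Field Ω'] [Algebra K Ω'] [Algebra E Ω']
    [Algebra F Ω'] [IsScalarTower K E Ω'] [IsScalarTower K F Ω']
    {c : (Ω ≃ₐ[F] Ω) → ClassGroup (D.base Ω).A} (h : D.TrivF E Ω' c) :
    D.TrivF E Ω' (fun σ => (D.base Ω).phi (c σ)) := by
  obtain ⟨ι, P, h⟩ := h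
  refine ⟨ι, (D.base Ω').phi P, fun τ σ hτσ => ?_⟩
  rw [mC_phi, h τ σ hτσ, _root_.map_div, mC_phi]

end

section
variable {ℓ n : ℕ} {k k' K F Ω : Type} [Field k] [Field k'] [Algebra k k'] [IsSepClosure k k']
  [Field K] [Algebra k[X] K] [IsFractionRing k[X] K] [Field F] [Algebra k'[X] F]
  [IsFractionRing k'[X] F] [Algebra K F] [Field Ω] [Algebra F Ω] [Algebra K Ω]
  [IsScalarTower K F Ω] [IsSepClosure F Ω] [IsGalois F Ω] [IsGalois K Ω] [IsSepClosed Ω]
  {D : Dat ℓ n K}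
  (hKF : ∀ p : k[X], algebraMap K F (algebraMap k[X] K p) =
    algebraMap k'[X] F (p.map (algebraMap k k')))

/-- The conditions on the twisting polynomial `D1`. -/
structure Cnd (D : Dat ℓ n K) (T : Finset k[X]) (D1 : k[X]) : Prop where
  irr : Irreducible D1
  sep : D1.Separable
  cst : ∀ c : k, (∃ a : k[X], D1 ∣ C c - a ^ ℓ) → ∃ b : k, c = b ^ ℓ
  mon : ∀ π ∈ T, Irreducible π ∧ π.Monic
  ndvd : ∀ π ∈ T, ¬ D1 ∣ π
  pws : ∀ (c : k) (a : k[X] → ℕ) (z : k[X]), c ≠ 0 → D1 ∣ C c * ∏ π ∈ T, π ^ a π - z ^ ℓ →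
    ∀ π ∈ T, ℓ ∣ a π
  good : ∀ v : HeightOneSpectrum k[X], (∀ π ∈ T, π ∉ v.asIdeal) → v ≠ hp D1 irr →
    (∀ i j, i ≠ j → v.valuation K (D.e i - D.e j) = 1) ∧ v.valuation K D.δ = 1
  at1 : ∀ i j, i ≠ j → (hp D1 irr).valuation K (D.e i - D.e j) = 1
  at2 : ¬ Pw ℓ ((hp D1 irr).valuation K D.δ)

variable {T : Finset k[X]} {D1 : k[X]} (hC : Cnd D T D1) {θ : k'} (hθ : aeval θ D1 = 0)
  (hℓ : (ℓ : k') ≠ 0) {ζ : k} (hζ : IsPrimitiveRoot ζ ℓ)

omit [IsSepClosure k k'] in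
theorem mem_pl {p : k[X]} (h : aeval θ p = 0) : p.map (algebraMap k k') ∈ (pl θ).asIdeal := by
  show _ ∈ Ideal.span {X - C θ}
  rw [Ideal.mem_span_singleton, dvd_iff_isRoot, IsRoot.def, eval_map_algebraMap, h]

include hKF hC hθ hℓ in
theorem Cnd.twp : ∃ S : LS ℓ (Comp k'[X] F (pl θ)) (Sep (Comp k'[X] F (pl θ))), TwP D S := by
  refine exists_twp D hℓ (pl θ) (fun i j hij => ?_) (fun h => hC.at2 ?_)
  · exact one_above hKF hC.irr (mem_pl hθ) (sub_ne_zero.2 fun h => hij (D.he h)) (hC.at1 i j hij)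
  · refine pw_above (F := F) hKF D.hp hC.irr ?_ D.hδ h
    rw [val_pl_sep hC.irr hC.sep hθ]
    exact not_pw_exp D.hp

include hKF hC hθ hℓ hζ in
/-- the first layer of an invariant class with a second layer -/
theorem core {b : (Ω ≃ₐ[F] Ω) → ClassGroup (D.base Ω).A} (hb : L2 (F := F) D k' b) :
    ∃ (R : ClassGroup (D.base Ω).A) (m : Fin n → ℕ),
      (D.base Ω).phi ((D.base Ω).phi R) = cl ((D.base Ω).PT m) ∧
      ∀ σ : Ω ≃ₐ[F] Ω, (D.base Ω).phi (b σ) =
        D.mC (rs K σ) ((D.base Ω).phi R) / (D.base Ω).phi R := by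
  have hS := hC.twp hKF hθ hℓ
  have hK : Kum ℓ D1 := fun b q h => hC.cst b ⟨q, by rw [← neg_sub, dvd_neg]; exact h⟩
  obtain ⟨R, m, B, ι, hRR, hB1, hBc, hBG, hBv, hBs⟩ := third (D := D) hKF hC.irr hK hθ hℓ hζ hS hb
  refine ⟨R, m, hRR, ?_⟩
  choose χ hχ using fun τ => exists_PT (hB1 τ)
  have hBχ : B = fun τ => cl ((D.base Ω).PT (χ τ)) := funext hχ
  have hc : D.Coc (fun τ => cl ((D.base Ω).PT (χ τ))) := hBχ ▸ hBc
  obtain ⟨kd⟩ := D.exists_KD hc
  obtain ⟨kf, hkf⟩ := exists_resKD (F := F) D kd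
  have h0 : cl ((D.base Ω).PT (fun _ => 0)) = 1 :=
    (D.base Ω).cl_PT_of_modEq (fun i j => Nat.ModEq.refl _)
  -- an automorphism with trivial value fixes the generators
  have hfixθ : ∀ (τ : Ω ≃ₐ[K] Ω), B τ = 1 → ∀ i j, τ (kd.θ i j) = kd.θ i j := by
    intro τ hτ i j
    rw [hχ τ, ← h0] at hτ
    have h1 := (D.base Ω).PT_indep hτ i j
    simp only [add_zero] at h1
    have h3 := kd.hθ τ i j
    rw [(D.base Ω).ζ_pow_of_modEq h1] at h3
    exact mul_left_cancel₀ (pow_ne_zero _ (D.base Ω).ζ_ne) h3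
  have hloc : ∀ w : HeightOneSpectrum k'[X], D.TrivF (Comp k'[X] F w) (Sep (Comp k'[X] F w))
      (fun σ : Ω ≃ₐ[F] Ω => cl ((D.base Ω).PT (χ (σ.restrictScalars K)))) := by
    intro w
    have e : (fun σ : Ω ≃ₐ[F] Ω => cl ((D.base Ω).PT (χ (σ.restrictScalars K)))) =
        fun σ => (D.base Ω).phi (b σ / (D.mC (rs K σ) R / R)) := by
      funext σ
      rw [← hχ, hBG]
    rw [e]
    exact TrivF.phi' ((hb.triv w).div_cob R)
  have hpow : ∀ i j, ∃ y : K, kd.d i j = y ^ ℓ := by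
    intro i j
    have hd0 : kd.d i j ≠ 0 := by
      intro h0
      have := kd.hd i j
      rw [h0, map_zero] at this
      exact kd.h0 i j (pow_eq_zero_iff D.pos.ne' |>.1 this)
    have hfx : ∀ ρ : Sep (Comp k'[X] F (pl θ)) ≃ₐ[Comp k'[X] F (pl θ)] Sep (Comp k'[X] F (pl θ)),
        ρ (ι (kd.θ i j)) = ι (kd.θ i j) := by
      intro ρ
      obtain ⟨σ, hσ⟩ := exists_restrict (F := F) (Ω := Ω) (L := Comp k'[X] F (pl θ))
        (Ω' := Sep (Comp k'[X] F (pl θ))) ι ρ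
      rw [hσ]
      congr 1
      exact hfixθ _ (hBv ρ σ hσ) i j
    obtain ⟨x, hx⟩ := exists_F hfx
    refine stab3 hKF D.hp hC.irr hC.sep hθ hC.cst T hC.mon hC.ndvd hC.pws hd0 ?_
      (x := (show (pl θ).adicCompletion F from x)) ?_ ?_
    · intro v hvT hvD
      have hg := hC.good v hvT hvD
      obtain ⟨w, hw⟩ := exists_above (F := F) (k' := k') D.hp hℓ (gen_irr v) (gen_monic v)
      have hwm : (gen v).map (algebraMap k k') ∈ w.asIdeal := by
        by_contra hne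
        rw [(val_eq_one_iff w _).2 hne] at hw
        exact hw Pw.one
      have hve := gen_eq v
      rw [hve] at hg
      rw [hve]
      refine pw_above (F := F) hKF D.hp (gen_irr v) hw hd0 ?_
      rw [← hkf]
      refine good_placeF D hℓ kf w ?_ ?_ (hloc w) i j
      · exact one_above hKF (gen_irr v) hwm D.hδ hg.2
      · intro i' j' hij
        exact one_above hKF (gen_irr v) hwm (sub_ne_zero.2 fun h => hij (D.he h)) (hg.1 i' j' hij)
    · apply (algebraMap (Comp k'[X] F (pl θ)) (Sep (Comp k'[X] F (pl θ)))).injective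
      have h1 : algebraMap (Comp k'[X] F (pl θ)) (Sep (Comp k'[X] F (pl θ))) (x ^ ℓ) =
          algebraMap F (Sep (Comp k'[X] F (pl θ))) (algebraMap K F (kd.d i j)) := by
        rw [map_pow, hx, ← map_pow, kd.hd, IsScalarTower.algebraMap_apply K F Ω, ι.commutes]
      exact h1.symm
    · intro s hs
      obtain ⟨g, φ, τ, h1, h2, h3, h4, h5, h6⟩ := hBs s hs
      refine ⟨g, h1, h2, ?_⟩
      apply (algebraMap (Comp k'[X] F (pl θ)) (Sep (Comp k'[X] F (pl θ)))).injective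
      have h7 := h3 x
      rw [hx, h4, hfixθ τ h6 i j, ← hx] at h7
      exact h7.symm
  intro σ
  have hB : B (σ.restrictScalars K) = 1 := by
    rw [hχ]
    apply (D.base Ω).cl_PT_of_modEq
    intro i j
    obtain ⟨y, hy⟩ := hpow i j
    exact D.modEq_of_pow kd hy _
  rw [hBG, _root_.map_div, _root_.map_div, div_eq_one] at hB
  rw [hB, mC_phi]

end

end Pool.Agent.J6H65.ST
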