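import Pool.Agent.Y713.TG.Thm
import Pool.Agent.J6H65.ST.Cor

/-!
The formal part of the descent for `y ^ ℓ = f(x)`, `f` not necessarily monic.
-/

set_option autoImplicit false
set_option linter.all false

open Polynomial IsDedekindDomain

namespace Pool.Agent.J6H65.ST

open Pool.Agent.Y713.SE Pool.Agent.Y713.SE.Dat
open Pool.Agent.Y160.SE (Jac jm IsTC IsTM IsCoc LocTriv IsInv nrm exists_U exists_W exists_W1 jm_jm)
open Pool.Agent.TH115.GD (pl Preserves Comp Sep exists_conj lift restr preserves incl ak)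

section act
variable {ℓ n : ℕ} {K : Type} [Field K] (D : Dat ℓ n K)

/-- The automorphism `σ` of `J(L)`. -/
noncomputable def sgD (L : Type) [Field L] [Algebra K L] : AddMonoid.End (Jac ℓ D.f L) where
  toFun x := Additive.ofMul (D.Te L ((D.base L).sC (D.tj L x)))
  map_zero' := by rw [D.tj_zero, map_one, map_one]; rfl
  map_add' x y := by rw [D.tj_add, map_mul, map_mul]; rfl

variable {L L' : Type} [Field L] [Algebra K L] [Field L'] [Algebra K L']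

theorem tj_sgD (x : Jac ℓ D.f L) : D.tj L (sgD D L x) = (D.base L).sC (D.tj L x) :=
  (D.Te L).symm_apply_apply _

/-- The action of `ℤ[σ]`. -/
noncomputable def pD (L : Type) [Field L] [Algebra K L] (p : ℤ[X]) :
    AddMonoid.End (Jac ℓ D.f L) := aeval (sgD D L) p

theorem pD_mul (p q : ℤ[X]) (x : Jac ℓ D.f L) : pD D L (p * q) x = pD D L p (pD D L q x) := by
  unfold pD
  rw [map_mul]; rfl

theorem pD_add (p q : ℤ[X]) (x : Jac ℓ D.f L) : pD D L (p + q) x = pD D L p x + pD D L q x := by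
  unfold pD
  rw [map_add]; rfl

theorem pD_sub (p q : ℤ[X]) (x : Jac ℓ D.f L) : pD D L (p - q) x = pD D L p x - pD D L q x := by
  unfold pD
  rw [map_sub]; rfl

theorem pD_one (x : Jac ℓ D.f L) : pD D L 1 x = x := by
  unfold pD
  rw [map_one]; rfl

theorem pD_nat (n : ℕ) (x : Jac ℓ D.f L) : pD D L (n : ℤ[X]) x = n • x := by
  unfold pD
  rw [map_natCast]
  exact AddMonoid.End.natCast_apply n x

theorem pD_X (x : Jac ℓ D.f L) : pD D L X x = sgD D L x := by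
  unfold pD
  rw [aeval_X]

theorem pD_comm (p q : ℤ[X]) (x : Jac ℓ D.f L) :
    pD D L p (pD D L q x) = pD D L q (pD D L p x) := by
  rw [← pD_mul, ← pD_mul, mul_comm]

theorem jm_sgD (φ : L →ₐ[K] L') (x : Jac ℓ D.f L) :
    jm ℓ D.f φ (sgD D L x) = sgD D L' (jm ℓ D.f φ x) := by
  apply D.tj_inj
  rw [D.tj_jm, tj_sgD, tj_sgD, D.tj_jm, mC_sC]

theorem jm_pD (φ : L →ₐ[K] L') (p : ℤ[X]) (x : Jac ℓ D.f L) :
    jm ℓ D.f φ (pD D L p x) = pD D L' p (jm ℓ D.f φ x) := by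
  induction p using Polynomial.induction_on' generalizing x with
  | add p q hp hq => rw [pD_add, pD_add, map_add, hp, hq]
  | monomial n c =>
    induction n generalizing x with
    | zero =>
      rw [monomial_zero_left]
      unfold pD
      rw [aeval_C, aeval_C, Algebra.algebraMap_eq_smul_one, Algebra.algebraMap_eq_smul_one]
      show jm ℓ D.f φ (c • x) = c • (jm ℓ D.f φ x)
      rw [map_zsmul]
    | succ n ih =>
      have e : (monomial (n + 1) c : ℤ[X]) = monomial n c * X := by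
        rw [monomial_mul_X]
      rw [e, pD_mul, pD_mul, ih, pD_X, pD_X, jm_sgD]

theorem tj_lamD (x : Jac ℓ D.f L) :
    D.tj L (pD D L (1 - X) x) = (D.base L).phi (D.tj L x) := by
  rw [pD_sub, pD_one, pD_X, D.tj_sub, tj_sgD]
  rfl

theorem tj_XD (j : ℕ) (x : Jac ℓ D.f L) :
    D.tj L (pD D L (X ^ j) x) = ((D.base L).sC)^[j] (D.tj L x) := by
  induction j generalizing x with
  | zero => rw [pow_zero, pD_one]; rfl
  | succ j ih => rw [pow_succ, pD_mul, ih, pD_X, tj_sgD, Function.iterate_succ_apply]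

theorem pD_nrm (x : Jac ℓ D.f L) : pD D L (nrm ℓ) x = 0 := by
  apply D.tj_inj
  rw [D.tj_zero, ← (D.base L).prod_sC (D.tj L x)]
  have h : ∀ m : ℕ, D.tj L (pD D L (∑ i ∈ Finset.range m, X ^ i) x) =
      ∏ j ∈ Finset.range m, ((D.base L).sC)^[j] (D.tj L x) := by
    intro m
    induction m with
    | zero =>
      rw [Finset.sum_range_zero, Finset.prod_range_zero]
      have : pD D L 0 x = 0 := by unfold pD; rw [map_zero]; rfl
      rw [this, D.tj_zero]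
    | succ m ih =>
      rw [Finset.sum_range_succ, Finset.prod_range_succ, pD_add, D.tj_add, ih, tj_XD]
  exact h ℓ

theorem exists_UD : ∃ U : ℤ[X], ∀ (Ω : Type) [Field Ω] [Algebra K Ω] (x : Jac ℓ D.f Ω),
    ℓ • x = pD D Ω (U * (1 - X) ^ (ℓ - 1)) x := by
  obtain ⟨U, V, h⟩ := exists_U D.hp
  refine ⟨U, fun Ω _ _ x => ?_⟩
  rw [← pD_nat D, h, pD_add, pD_mul D V, pD_nrm, map_zero, add_zero]

theorem exists_W1D : ∃ W : ℤ[X], ∀ (Ω : Type) [Field Ω] [Algebra K Ω] (x : Jac ℓ D.f Ω),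
    pD D Ω ((1 - X) ^ (ℓ - 1)) x = ℓ • pD D Ω W x := by
  obtain ⟨W, V, h⟩ := exists_W1 D.hp
  refine ⟨W, fun Ω _ _ x => ?_⟩
  rw [h, pD_add, pD_mul D V, pD_mul, pD_nat, pD_nrm D, map_zero, add_zero]

theorem lam_surjD [IsSepClosed L] (x : Jac ℓ D.f L) :
    ∃ y : Jac ℓ D.f L, pD D L (1 - X) y = x := by
  obtain ⟨p, hp⟩ := ExpChar.exists L
  haveI := hp
  obtain ⟨c, hc⟩ := (D.base L).phi_surj (p := p) (D.tj L x)
  obtain ⟨y, hy⟩ := D.tj_surj L c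
  refine ⟨y, ?_⟩
  apply D.tj_inj
  rw [tj_lamD, hy]
  exact phi_eq_iff.2 hc

theorem lam_pow_surjD [IsSepClosed L] (n : ℕ) (x : Jac ℓ D.f L) :
    ∃ y : Jac ℓ D.f L, pD D L ((1 - X) ^ n) y = x := by
  induction n generalizing x with
  | zero => exact ⟨x, by rw [pow_zero, pD_one]⟩
  | succ n ih =>
    obtain ⟨z, hz⟩ := ih x
    obtain ⟨y, hy⟩ := lam_surjD D z
    exact ⟨y, by rw [pow_succ, pD_mul, hy, hz]⟩

end act

section cont

variable {ℓ n : ℕ} {K F Ω : Type} [Field K] [Field F] [Field Ω] [Algebra K F] [Algebra F Ω]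
  [Algebra K Ω] [IsScalarTower K F Ω] (D : Dat ℓ n K)

theorem cob_isCocD [IsGalois F Ω] (Q : Jac ℓ D.f Ω) :
    IsCoc ℓ D.f (fun σ : Ω ≃ₐ[F] Ω => jm ℓ D.f (Pool.Agent.TH115.GD.rs K σ) Q - Q) := by
  refine ⟨?_, fun σ τ => ?_⟩
  · have h1 := mC_lc (F := F) D (D.tj Ω Q)
    have h2 : IsLocallyConstant (fun σ : Ω ≃ₐ[F] Ω =>
        D.tj Ω (jm ℓ D.f (Pool.Agent.TH115.GD.rs K σ) Q)) := by
      convert h1 using 2 with σ
      rw [D.tj_jm]
      rfl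
    exact (locConst_congr h2 fun x y h => by
      have h3 : jm ℓ D.f (Pool.Agent.TH115.GD.rs K x) Q = jm ℓ D.f (Pool.Agent.TH115.GD.rs K y) Q :=
        D.tj_inj Ω h
      show jm ℓ D.f (Pool.Agent.TH115.GD.rs K x) Q - Q = _
      rw [h3])
  · show jm ℓ D.f (Pool.Agent.TH115.GD.rs K (σ * τ)) Q - Q =
      jm ℓ D.f (Pool.Agent.TH115.GD.rs K σ) Q - Q + jm ℓ D.f (Pool.Agent.TH115.GD.rs K σ)
        (jm ℓ D.f (Pool.Agent.TH115.GD.rs K τ) Q - Q)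
    rw [map_sub, jm_jm, Pool.Agent.TH115.GD.rs_mul]
    abel

theorem coc_pD {c : (Ω ≃ₐ[F] Ω) → Jac ℓ D.f Ω} (h : IsCoc ℓ D.f c) (p : ℤ[X]) :
    IsCoc ℓ D.f (fun σ => pD D Ω p (c σ)) := by
  refine ⟨?_, fun σ τ => ?_⟩
  · exact h.lc.comp (fun a => pD D Ω p a)
  · show pD D Ω p (c (σ * τ)) = pD D Ω p (c σ) + jm ℓ D.f _ (pD D Ω p (c τ))
    rw [h.mul, map_add, jm_pD]

variable {L Ω' : Type} [Field L] [Field Ω'] [Algebra K L] [Algebra L Ω'] [Algebra K Ω']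
  [Algebra F Ω'] [IsScalarTower K L Ω'] [IsScalarTower K F Ω']

theorem loc_pD {c : (Ω ≃ₐ[F] Ω) → Jac ℓ D.f Ω} (h : LocTriv ℓ D.f L Ω' c) (p : ℤ[X]) :
    LocTriv ℓ D.f L Ω' (fun σ => pD D Ω p (c σ)) := by
  obtain ⟨ι, S, hS⟩ := h
  refine ⟨ι, pD D Ω' p S, fun τ σ hτσ => ?_⟩
  rw [jm_pD, hS τ σ hτσ, map_sub, jm_pD]

end cont

/-- The cocycles with values in `T_ℓ J` which are locally trivial at the finite places and whose
classes are fixed by the Galois group. -/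
structure OT (ℓ : ℕ) {K F : Type} [Field K] [Field F] [Algebra K F] (k' : Type) [Field k']
    [Algebra k'[X] F] [IsFractionRing k'[X] F] (f : K[X])
    (c : ℕ → (Sep F ≃ₐ[F] Sep F) → Jac ℓ f (Sep F)) : Prop where
  tc : IsTC ℓ f c
  loc : ∀ (n : ℕ) (v : HeightOneSpectrum k'[X]),
    LocTriv ℓ f (Comp k'[X] F v) (Sep (Comp k'[X] F v)) (c n)
  inv : IsInv ℓ f c

section step

variable {ℓ n : ℕ} {k' K F : Type} [Field k'] [Field K] [Field F] [Algebra K F] [Algebra k'[X] F]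
  [IsFractionRing k'[X] F] (D : Dat ℓ n K)

/-- Division of a Tate class by `1 - σ`. -/
theorem div_classD {c : ℕ → (Sep F ≃ₐ[F] Sep F) → Jac ℓ D.f (Sep F)} (hT : OT ℓ k' D.f c)
    {P : Jac ℓ D.f K} {R : Jac ℓ D.f (Sep F)}
    (hR : pD D (Sep F) (1 - X) R = jm ℓ D.f (incl K K (Sep F)) P)
    (key : ∀ σ, pD D (Sep F) ((1 - X) ^ (ℓ - 2)) (c 1 σ) =
      jm ℓ D.f (Pool.Agent.TH115.GD.rs K σ) R - R) :
    ∃ (V0 : ℤ[X]) (G : ℕ → Jac ℓ D.f (Sep F))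
      (c' : ℕ → (Sep F ≃ₐ[F] Sep F) → Jac ℓ D.f (Sep F)),
      G 0 = jm ℓ D.f (incl K K (Sep F)) (pD D K V0 P) ∧ (∀ n, ℓ • G (n + 1) = G n) ∧
      OT ℓ k' D.f c' ∧
      ∀ n σ, c n σ = (jm ℓ D.f (Pool.Agent.TH115.GD.rs K σ) (G n) - G n) +
        pD D (Sep F) (1 - X) (c' n σ) := by
  obtain ⟨U, hU⟩ := exists_UD D
  obtain ⟨W, hW⟩ := exists_W1D D
  have h2 := D.hp.two_le
  have hpow : ((1 : ℤ[X]) - X) ^ (ℓ - 1) = (1 - X) * (1 - X) ^ (ℓ - 2) := by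
    rw [← pow_succ', show ℓ - 2 + 1 = ℓ - 1 by omega]
  have hUl : ∀ x : Jac ℓ D.f (Sep F),
      pD D (Sep F) (1 - X) (pD D (Sep F) (U * (1 - X) ^ (ℓ - 2)) x) = ℓ • x := by
    intro x
    rw [hU, ← pD_mul, hpow]
    congr 1
    congr 1
    ring
  obtain ⟨R1, hR1⟩ := lam_pow_surjD D (ℓ - 2) R
  -- divisibility by `ℓ`
  have hdiv : ∀ x : Jac ℓ D.f (Sep F), ∃ y, ℓ • y = x := by
    intro x
    obtain ⟨y, hy⟩ := lam_pow_surjD D (ℓ - 1) x
    exact ⟨pD D _ W y, by rw [← hW, hy]⟩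
  choose dv hdv using hdiv
  let G : ℕ → Jac ℓ D.f (Sep F) := fun n => Nat.casesOn n (ℓ • R1)
    (fun i => Nat.rec R1 (fun _ X => dv X) i)
  have G0 : G 0 = jm ℓ D.f (incl K K (Sep F)) (pD D K U P) := by
    show ℓ • R1 = _
    rw [jm_pD, ← hR, hU, ← hR1, ← pD_mul, ← pD_mul, hpow]
    congr 1
    congr 1
    ring
  have G1 : G 1 = R1 := rfl
  have GS : ∀ n, ℓ • G (n + 1) = G n := by
    intro n
    cases n with
    | zero => rfl
    | succ n => exact hdv _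
  have PK : ∀ φ : Sep F →ₐ[K] Sep F, jm ℓ D.f φ (G 0) = G 0 := by
    intro φ
    have h1 : φ.comp (incl K K (Sep F)) = incl K K (Sep F) := AlgHom.ext fun x => φ.commutes x
    rw [G0, jm_jm, h1]
  set V : ℤ[X] := U * (1 - X) ^ (ℓ - 2) with hV
  let b : ℕ → (Sep F ≃ₐ[F] Sep F) → Jac ℓ D.f (Sep F) := fun n σ =>
    c n σ - (jm ℓ D.f (Pool.Agent.TH115.GD.rs K σ) (G n) - G n)
  let c' : ℕ → (Sep F ≃ₐ[F] Sep F) → Jac ℓ D.f (Sep F) := fun n σ => pD D (Sep F) V (b (n + 1) σ)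
  have bS : ∀ n σ, ℓ • b (n + 1) σ = b n σ := by
    intro n σ
    show ℓ • (c (n + 1) σ - (jm ℓ D.f (Pool.Agent.TH115.GD.rs K σ) (G (n + 1)) - G (n + 1))) = _
    rw [smul_sub, smul_sub, ← map_nsmul, GS, hT.tc.step]
  have hlam : ∀ n σ, pD D (Sep F) (1 - X) (c' n σ) = b n σ := by
    intro n σ
    show pD D (Sep F) (1 - X) (pD D (Sep F) V (b (n + 1) σ)) = _
    rw [hUl, bS]
  refine ⟨U, G, c', G0, GS, ⟨?_, fun n v => ?_, ?_⟩, fun n σ => ?_⟩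
  · refine ⟨fun n => coc_pD D ((hT.tc.coc (n + 1)).sub (cob_isCocD D _)) V, fun σ => ?_,
      fun n σ => ?_⟩
    · show pD D (Sep F) V (b 1 σ) = 0
      have h3 : pD D (Sep F) ((1 - X) ^ (ℓ - 2)) (b 1 σ) = 0 := by
        show pD D (Sep F) ((1 - X) ^ (ℓ - 2)) (c 1 σ -
          (jm ℓ D.f (Pool.Agent.TH115.GD.rs K σ) (G 1) - G 1)) = 0
        rw [map_sub, key, map_sub, ← jm_pD, G1, hR1, sub_self]
      rw [hV, pD_mul, h3, map_zero]
    · show ℓ • pD D (Sep F) V (b (n + 1 + 1) σ) = pD D (Sep F) V (b (n + 1) σ)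
      rw [← map_nsmul, bS]
  · exact loc_pD D ((hT.loc (n + 1) v).sub _) V
  · intro τ
    obtain ⟨m, Q, hQ, hinv⟩ := hT.inv τ
    -- the element for `b`
    let Q' : ℕ → Jac ℓ D.f (Sep F) := fun n => Q n - ℓ ^ m • (jm ℓ D.f (ak τ) (G n) - G n)
    have Q'0 : Q' 0 = 0 := by
      show Q 0 - ℓ ^ m • (jm ℓ D.f (ak τ) (G 0) - G 0) = 0
      rw [hQ.zero, PK, sub_self, smul_zero, sub_zero]
    have Q'S : ∀ n, ℓ • Q' (n + 1) = Q' n := by
      intro n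
      show ℓ • (Q (n + 1) - ℓ ^ m • (jm ℓ D.f (ak τ) (G (n + 1)) - G (n + 1))) = _
      rw [smul_sub, hQ.step, smul_comm, smul_sub, ← map_nsmul, GS]
    have hb : ∀ (n : ℕ) (σ σ' : Sep F ≃ₐ[F] Sep F), (∀ x, τ (σ' x) = σ (τ x)) →
        ℓ ^ m • (jm ℓ D.f (ak τ) (b n σ') - b n σ) =
          jm ℓ D.f (Pool.Agent.TH115.GD.rs K σ) (Q' n) - Q' n := by
      intro n σ σ' h
      have h1 := hinv n σ σ' h
      have hcomp : jm ℓ D.f (ak τ) (jm ℓ D.f (Pool.Agent.TH115.GD.rs K σ') (G n)) =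
          jm ℓ D.f (Pool.Agent.TH115.GD.rs K σ) (jm ℓ D.f (ak τ) (G n)) := by
        have h5 : (ak τ).comp (Pool.Agent.TH115.GD.rs K σ') =
          (Pool.Agent.TH115.GD.rs K σ).comp (ak τ) := AlgHom.ext fun x => h x
        rw [jm_jm, jm_jm, h5]
      show ℓ ^ m • (jm ℓ D.f (ak τ) (c n σ' -
        (jm ℓ D.f (Pool.Agent.TH115.GD.rs K σ') (G n) - G n)) -
        (c n σ - (jm ℓ D.f (Pool.Agent.TH115.GD.rs K σ) (G n) - G n))) =
        jm ℓ D.f (Pool.Agent.TH115.GD.rs K σ) (Q n - ℓ ^ m • (jm ℓ D.f (ak τ) (G n) - G n)) -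
          (Q n - ℓ ^ m • (jm ℓ D.f (ak τ) (G n) - G n))
      rw [map_sub (jm ℓ D.f (ak τ)), map_sub (jm ℓ D.f (ak τ)), hcomp]
      have h4 : jm ℓ D.f (ak τ) (c n σ') -
          (jm ℓ D.f (Pool.Agent.TH115.GD.rs K σ) (jm ℓ D.f (ak τ) (G n)) - jm ℓ D.f (ak τ) (G n)) -
          (c n σ - (jm ℓ D.f (Pool.Agent.TH115.GD.rs K σ) (G n) - G n)) =
          (jm ℓ D.f (ak τ) (c n σ') - c n σ) -
          (jm ℓ D.f (Pool.Agent.TH115.GD.rs K σ) (jm ℓ D.f (ak τ) (G n) - G n) -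
            (jm ℓ D.f (ak τ) (G n) - G n)) := by
        rw [map_sub (jm ℓ D.f (Pool.Agent.TH115.GD.rs K σ))]; abel
      rw [h4, smul_sub, h1, map_sub (jm ℓ D.f (Pool.Agent.TH115.GD.rs K σ)) (Q n),
        map_nsmul (jm ℓ D.f (Pool.Agent.TH115.GD.rs K σ)), smul_sub]
      abel
    refine ⟨m + 1, fun n => ℓ • pD D (Sep F) V (Q' (n + 1)), ⟨?_, fun n => ?_⟩, ?_⟩
    · show ℓ • pD D (Sep F) V (Q' (0 + 1)) = 0
      rw [← map_nsmul, Q'S, Q'0, map_zero]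
    · show ℓ • (ℓ • pD D (Sep F) V (Q' (n + 1 + 1))) = ℓ • pD D (Sep F) V (Q' (n + 1))
      rw [← map_nsmul (pD D (Sep F) V), Q'S]
    · intro n σ σ' h
      have h1 := hb (n + 1) σ σ' h
      show ℓ ^ (m + 1) • (jm ℓ D.f (ak τ) (pD D (Sep F) V (b (n + 1) σ')) -
        pD D (Sep F) V (b (n + 1) σ)) = jm ℓ D.f (Pool.Agent.TH115.GD.rs K σ)
          (ℓ • pD D (Sep F) V (Q' (n + 1))) - ℓ • pD D (Sep F) V (Q' (n + 1))
      rw [jm_pD, ← map_sub, pow_succ', mul_smul, ← map_nsmul, h1, map_nsmul, ← smul_sub, map_sub,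
        jm_pD]
  · rw [hlam]
    show c n σ = (jm ℓ D.f (Pool.Agent.TH115.GD.rs K σ) (G n) - G n) +
      (c n σ - (jm ℓ D.f (Pool.Agent.TH115.GD.rs K σ) (G n) - G n))
    abel

/-- If the first layer of every class comes from the points killed by `1 - σ`, so does every
class. -/
theorem no_of_first
    (h : ∀ c : ℕ → (Sep F ≃ₐ[F] Sep F) → Jac ℓ D.f (Sep F), OT ℓ k' D.f c →
      ∃ (P : Jac ℓ D.f K) (R : Jac ℓ D.f (Sep F)), pD D K (1 - X) P = 0 ∧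
        pD D (Sep F) (1 - X) R = jm ℓ D.f (incl K K (Sep F)) P ∧
        ∀ σ, pD D (Sep F) ((1 - X) ^ (ℓ - 2)) (c 1 σ) =
          jm ℓ D.f (Pool.Agent.TH115.GD.rs K σ) R - R)
    {c : ℕ → (Sep F ≃ₐ[F] Sep F) → Jac ℓ D.f (Sep F)} (hc : OT ℓ k' D.f c) (n : ℕ) :
    ∃ (P : Jac ℓ D.f K) (R : Jac ℓ D.f (Sep F)), ℓ • P = 0 ∧
      ℓ ^ n • R = jm ℓ D.f (incl K K (Sep F)) P ∧
      ∀ σ, c n σ = jm ℓ D.f (Pool.Agent.TH115.GD.rs K σ) R - R := by
  obtain ⟨U, hU⟩ := exists_UD D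
  obtain ⟨W, hW⟩ := exists_W1D D
  have h2 := D.hp.two_le
  have key : ∀ (N : ℕ) (c : ℕ → (Sep F ≃ₐ[F] Sep F) → Jac ℓ D.f (Sep F)), OT ℓ k' D.f c →
      ∃ (P : Jac ℓ D.f K) (G : ℕ → Jac ℓ D.f (Sep F))
        (c' : ℕ → (Sep F ≃ₐ[F] Sep F) → Jac ℓ D.f (Sep F)), pD D K (1 - X) P = 0 ∧
        G 0 = jm ℓ D.f (incl K K (Sep F)) P ∧ (∀ n, ℓ • G (n + 1) = G n) ∧ OT ℓ k' D.f c' ∧
        ∀ n σ, c n σ = (jm ℓ D.f (Pool.Agent.TH115.GD.rs K σ) (G n) - G n) +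
          pD D (Sep F) ((1 - X) ^ N) (c' n σ) := by
    intro N
    induction N with
    | zero =>
      intro c hc
      refine ⟨0, fun _ => 0, c, map_zero _, (map_zero _).symm, fun n => smul_zero _, hc,
        fun n σ => ?_⟩
      rw [map_zero, sub_zero, zero_add, pow_zero, pD_one]
    | succ N ih =>
      intro c hc
      obtain ⟨P, R, hP, hR, hcR⟩ := h c hc
      obtain ⟨V0, G1, c1, h1, h3, h4, h5⟩ := div_classD D hc hR hcR
      obtain ⟨P2, G2, c2, hP2, h6, h7, h8, h9⟩ := ih c1 h4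
      refine ⟨pD D K V0 P + pD D K (1 - X) P2, fun n => G1 n + pD D (Sep F) (1 - X) (G2 n), c2,
        ?_, ?_, fun n => ?_, h8, fun n σ => ?_⟩
      · rw [map_add, pD_comm, hP, map_zero, hP2, map_zero, add_zero]
      · show G1 0 + pD D (Sep F) (1 - X) (G2 0) = _
        rw [h1, h6, map_add, jm_pD, jm_pD]
      · show ℓ • (G1 (n + 1) + pD D (Sep F) (1 - X) (G2 (n + 1))) = _
        rw [smul_add, h3, ← map_nsmul, h7]
      · show c n σ = (jm ℓ D.f (Pool.Agent.TH115.GD.rs K σ) (G1 n + pD D (Sep F) (1 - X) (G2 n)) -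
          (G1 n + pD D (Sep F) (1 - X) (G2 n))) + pD D (Sep F) ((1 - X) ^ (N + 1)) (c2 n σ)
        rw [h5, h9, map_add (pD D (Sep F) (1 - X)), ← pD_mul, ← pow_succ', map_sub,
          map_add (jm ℓ D.f _), jm_pD]
        abel
  obtain ⟨P, G, c', hP, h0, h1, h3, h4⟩ := key ((ℓ - 1) * n) c hc
  have hWn : ∀ (n : ℕ) (x : Jac ℓ D.f (Sep F)), pD D (Sep F) ((1 - X) ^ ((ℓ - 1) * n)) x =
      pD D (Sep F) (W ^ n) (ℓ ^ n • x) := by
    intro n
    induction n with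
    | zero => intro x; rw [mul_zero, pow_zero, pow_zero, pow_zero, one_smul]
    | succ n ih =>
      intro x
      rw [mul_add, mul_one, pow_add, pD_mul, hW, ih, pow_succ W, pD_mul, pow_succ ℓ, mul_smul,
        ← map_nsmul, ← map_nsmul, smul_comm]
  have hz : ∀ (n : ℕ) (σ : Sep F ≃ₐ[F] Sep F), ℓ ^ n • c' n σ = 0 := by
    intro n σ
    induction n with
    | zero => rw [pow_zero, one_smul, h3.tc.zero]
    | succ n ih => rw [pow_succ, mul_smul, h3.tc.step, ih]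
  have hG : ∀ n : ℕ, ℓ ^ n • G n = jm ℓ D.f (incl K K (Sep F)) P := by
    intro n
    induction n with
    | zero => rw [pow_zero, one_smul, h0]
    | succ n ih => rw [pow_succ, mul_smul, h1, ih]
  refine ⟨P, G n, ?_, hG n, fun σ => ?_⟩
  · rw [hU]
    have e1 : U * (1 - X) ^ (ℓ - 1) = U * (1 - X) ^ (ℓ - 2) * (1 - X) := by
      rw [mul_assoc, ← pow_succ, show ℓ - 2 + 1 = ℓ - 1 by omega]
    rw [e1, pD_mul, hP, map_zero]
  · rw [h4 n σ, hWn, hz, map_zero, add_zero]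

end step

end Pool.Agent.J6H65.ST
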