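import Pool.Agent.J6H65.ST.Opn

/-!
The homomorphism of the Galois group of `K` given by the second layer of an invariant class.
-/

set_option autoImplicit false
set_option linter.all false

open Polynomial IsDedekindDomain

namespace Pool.Agent.J6H65.ST

open Pool.Agent.Y713.SE Pool.Agent.Y713.SE.Dat
open Pool.Agent.TH115.GD (pl Preserves Comp Sep exists_conj lift restr preserves val_poly
  exists_restrict)
open scoped Topology

section
variable {ℓ n : ℕ} {k k' K F Ω : Type} [Field k] [Field k'] [Algebra k k'] [IsSepClosure k k']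
  [Field K] [Algebra k[X] K] [IsFractionRing k[X] K] [Field F] [Algebra k'[X] F]
  [IsFractionRing k'[X] F] [Algebra K F] [Field Ω] [Algebra F Ω] [Algebra K Ω]
  [IsScalarTower K F Ω] [IsSepClosure F Ω] [IsGalois F Ω] [IsGalois K Ω] [IsSepClosed Ω]
  {D : Dat ℓ n K}

/-- the second layer of an invariant locally trivial class -/
structure L2 (D : Dat ℓ n K) (k' : Type) [Field k'] [Algebra k'[X] F] [IsFractionRing k'[X] F]
    (b : (Ω ≃ₐ[F] Ω) → ClassGroup (D.base Ω).A) : Prop where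
  coc : D.CocF b
  sq : ∀ σ, (D.base Ω).phi ((D.base Ω).phi (b σ)) = 1
  triv : ∀ v : HeightOneSpectrum k'[X], D.TrivF (Comp k'[X] F v) (Sep (Comp k'[X] F v)) b
  inv : ∀ τ : Ω ≃ₐ[K] Ω, ∃ Q : ClassGroup (D.base Ω).A, Cmp (D := D) b τ Q ∧
    (D.base Ω).phi ((D.base Ω).phi ((D.base Ω).phi Q)) = 1

/-- a homomorphism from a choice of comparing elements -/
theorem hom_of_choice (hN : Preserves K F Ω) {b : (Ω ≃ₐ[F] Ω) → ClassGroup (D.base Ω).A}
    (ψ : ClassGroup (D.base Ω).A →* ClassGroup (D.base Ω).A)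
    (hψC : ∀ (φ : Ω →ₐ[K] Ω) x, ψ (D.mC φ x) = D.mC φ (ψ x))
    (C : ClassGroup (D.base Ω).A → Prop) (hCm : ∀ x y, C x → C y → C (x * y))
    (hCi : ∀ x y, C x → C y → C (x / y))
    (hCφ : ∀ (φ : Ω →ₐ[K] Ω) x, C x → C (D.mC φ x))
    (hCψ : ∀ x, C x → (D.base Ω).phi (ψ x) = 1)
    (hu : ∀ z, (∀ σ : Ω ≃ₐ[F] Ω, D.mC (rs K σ) z = z) → C z → ψ z = 1)
    {Q : (Ω ≃ₐ[K] Ω) → ClassGroup (D.base Ω).A} (hQ : ∀ τ, Cmp (D := D) b τ (Q τ))
    (hQC : ∀ τ, C (Q τ)) :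
    (∀ τ Q', Cmp (D := D) b τ Q' → C Q' → ψ (Q τ) = ψ Q') ∧
      ∀ τ τ', ψ (Q (τ * τ')) = ψ (Q τ) * ψ (Q τ') := by
  have h1 : ∀ τ Q', Cmp (D := D) b τ Q' → C Q' → ψ (Q τ) = ψ Q' := by
    intro τ Q' h h'
    have h2 := hu (Q τ / Q') (fun σ => Cmp.uniq hN (hQ τ) h σ) (hCi _ _ (hQC τ) h')
    rw [_root_.map_div] at h2
    exact div_eq_one.1 h2
  refine ⟨h1, fun τ τ' => ?_⟩
  rw [h1 _ _ (Cmp.mul hN (hQ τ) (hQ τ')) (hCm _ _ (hQC τ) (hCφ _ _ (hQC τ'))), map_mul, hψC,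
    mC_tor _ (hCψ _ (hQC τ'))]

variable
  (hKF : ∀ p : k[X], algebraMap K F (algebraMap k[X] K p) =
    algebraMap k'[X] F (p.map (algebraMap k k')))

include hKF in
theorem third {D1 : k[X]} (hD1 : Irreducible D1) (hK : Kum ℓ D1) {θ : k'}
    (hθ : aeval θ D1 = 0) (hℓ : (ℓ : k') ≠ 0) {ζ : k} (hζ : IsPrimitiveRoot ζ ℓ)
    (hS : ∃ S : LS ℓ (Comp k'[X] F (pl θ)) (Sep (Comp k'[X] F (pl θ))), TwP D S)
    {b : (Ω ≃ₐ[F] Ω) → ClassGroup (D.base Ω).A} (hb : L2 (F := F) D k' b) :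
    ∃ (R : ClassGroup (D.base Ω).A) (m : Fin n → ℕ)
      (B : (Ω ≃ₐ[K] Ω) → ClassGroup (D.base Ω).A) (ι : Ω →ₐ[F] Sep (Comp k'[X] F (pl θ))),
      (D.base Ω).phi ((D.base Ω).phi R) = cl ((D.base Ω).PT m) ∧
      (∀ τ, (D.base Ω).phi (B τ) = 1) ∧ D.Coc B ∧
      (∀ σ : Ω ≃ₐ[F] Ω, B (σ.restrictScalars K) =
        (D.base Ω).phi (b σ / (D.mC (rs K σ) R / R))) ∧
      (∀ (ρ : Sep (Comp k'[X] F (pl θ)) ≃ₐ[Comp k'[X] F (pl θ)] Sep (Comp k'[X] F (pl θ)))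
        (σ : Ω ≃ₐ[F] Ω), (∀ x, ρ (ι x) = ι (σ x)) → B (σ.restrictScalars K) = 1) ∧
      ∀ s : k' ≃ₐ[k] k', s θ = θ →
        ∃ (g : Comp k'[X] F (pl θ) ≃+* Comp k'[X] F (pl θ))
          (φ : Sep (Comp k'[X] F (pl θ)) ≃ₐ[K] Sep (Comp k'[X] F (pl θ))) (τ : Ω ≃ₐ[K] Ω),
          (∀ x : F, g (algebraMap F _ x) = algebraMap F _ (eF F s x)) ∧
          (∀ z : (pl θ).adicCompletion F, (Valued.v z : WithZero (Multiplicative ℤ)) < 1 →
            (Valued.v (show (pl θ).adicCompletion F from g z) :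
              WithZero (Multiplicative ℤ)) < 1) ∧
          (∀ x, φ (algebraMap (Comp k'[X] F (pl θ)) _ x) =
            algebraMap (Comp k'[X] F (pl θ)) _ (g x)) ∧
          (∀ x, φ (ι x) = ι (τ x)) ∧ OvF (F := F) τ s ∧ B τ = 1 := by
  have hN : Preserves K F Ω := preserves hKF
  obtain ⟨S, hS'⟩ := id hS
  obtain ⟨p, hp⟩ := ExpChar.exists (Sep (Comp k'[X] F (pl θ)))
  haveI := hp
  obtain ⟨p', hp'⟩ := ExpChar.exists Ω
  haveI := hp'
  set ph := (D.base Ω).phi with hph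
  set ph' := (D.base (Sep (Comp k'[X] F (pl θ)))).phi with hph'
  have hone : ∀ (m : Fin n → ℕ), D.mC (AlgHom.id K Ω) (cl ((D.base Ω).PT m)) =
    cl ((D.base Ω).PT m) := fun m => D.mC_PT _ m
  -- the local element
  obtain ⟨ι, P0, hP0⟩ := hb.triv (pl θ)
  have hres := fun ρ => exists_restrict (F := F) (Ω := Ω) (L := Comp k'[X] F (pl θ))
        (Ω' := Sep (Comp k'[X] F (pl θ))) ι ρ
  have hy : ∀ ρ : Sep (Comp k'[X] F (pl θ)) ≃ₐ[Comp k'[X] F (pl θ)] Sep (Comp k'[X] F (pl θ)),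
      D.mC (rs K ρ) (ph' (ph' P0)) = ph' (ph' P0) := by
    intro ρ
    obtain ⟨σ, hσ⟩ := hres ρ
    have h1 := hP0 ρ σ hσ
    have h2 := congrArg (fun x => ph' (ph' x)) h1
    simp only [_root_.map_div] at h2
    rw [hph', ← mC_phi, ← mC_phi, hb.sq, map_one] at h2
    rw [hph', mC_phi, mC_phi]
    exact (div_eq_one.1 h2.symm)
  obtain ⟨m, R1, e1, hR1⟩ := tw1 (p := p) hS' hy
  obtain ⟨m1, R2, e2, hR2⟩ := tw1 (p := p) hS' hR1
  have hPT1 : ph' (cl ((D.base (Sep (Comp k'[X] F (pl θ)))).PT m1)) = 1 := phi_PT m1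
  obtain ⟨P, hPdef⟩ : ∃ P, P = P0 / R2 := ⟨_, rfl⟩
  have hPP : ph' (ph' P) = cl ((D.base (Sep (Comp k'[X] F (pl θ)))).PT m) := by
    rw [hPdef, _root_.map_div, _root_.map_div, e1, e2, map_mul, hPT1, one_mul, mul_div_cancel_right]
  have hP : ∀ (ρ : Sep (Comp k'[X] F (pl θ)) ≃ₐ[Comp k'[X] F (pl θ)] Sep (Comp k'[X] F (pl θ)))
      (σ : Ω ≃ₐ[F] Ω), (∀ x : Ω, ρ (ι x) = ι (σ x)) →
      D.mC (ι.restrictScalars K) (b σ) = D.mC (rs K ρ) P / P := by
    intro ρ σ h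
    rw [hP0 ρ σ h, hPdef, _root_.map_div, hR2, div_div_div_cancel_right]
  -- the comparing elements
  choose Q hQ1 hQ2 using hb.inv
  have hg2 := fun {z} => gtw2 (D := D) (Ω := Ω) hS (z := z)
  have hg3 := fun {z} => gtw3 (D := D) (Ω := Ω) hS (z := z)
  have hT := hom_of_choice (D := D) hN (b := b) (ph.comp ph)
    (fun φ x => by
      show ph (ph (D.mC φ x)) = D.mC φ (ph (ph x))
      rw [hph, mC_phi, mC_phi]) (fun x => ph (ph (ph x)) = 1)
    (fun x y hx hy => by rw [map_mul, map_mul, map_mul, hx, hy, one_mul])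
    (fun x y hx hy => by rw [_root_.map_div, _root_.map_div, _root_.map_div, hx, hy, div_one])
    (fun φ x hx => by rw [hph, ← mC_phi, ← mC_phi, ← mC_phi, hx, map_one])
    (fun x hx => hx)
    (fun z hz h => by
      show ph (ph z) = 1
      rw [hg3 hz h, map_one]) hQ1 hQ2
  have hT0 : ∀ τ, ph (ph (Q τ)) = 1 := by
    refine triv_of_lifts (D := D) (F := F) (Ω := Ω) (T := fun τ => ph (ph (Q τ))) hKF hD1 hK hθ hℓ hζ
      hT.2 hQ2 ?_ ?_
    · intro σ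
      refine (hT.1 _ _ (Cmp.self hb.coc σ) ?_).trans (hb.sq σ)
      rw [hph, hb.sq, map_one]
    · intro s hs
      obtain ⟨g, φ, τ, h1, h2, h3, h4, h5⟩ := exists_lft (Ω := Ω) hKF hs ι
      refine ⟨τ, h5, ?_⟩
      have h6 := Cmp.loc (D := D) hP h3 h4 (hQ1 τ)
      have h7 : ph' (ph' (D.mC (φ : _ →ₐ[K] _) P / P / D.mC (ι.restrictScalars K) (Q τ))) =
          (D.mC (ι.restrictScalars K) (ph (ph (Q τ))))⁻¹ := by
        rw [_root_.map_div, _root_.map_div, _root_.map_div, _root_.map_div, hph', ← mC_phi,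
          ← mC_phi, ← mC_phi, ← mC_phi, ← hph', hPP, D.mC_PT, div_self', one_div]
      have h8 : ph' (ph' (ph' (D.mC (φ : _ →ₐ[K] _) P / P /
          D.mC (ι.restrictScalars K) (Q τ)))) = 1 := by
        rw [h7, map_inv, hph', ← mC_phi]
        rw [hph, hQ2, map_one, inv_one]
      have h9 := tw3 (p := p) hS' h6 h8
      rw [← hph'] at h9
      rw [h9, map_one] at h7
      exact mC_tor_inj (ι.restrictScalars K) (hQ2 τ) (inv_eq_one.1 h7.symm)
  -- the global element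
  obtain ⟨R0, hR0⟩ := (D.base Ω).phi_surj (p := p') (cl ((D.base Ω).PT m))
  obtain ⟨R, hR⟩ := (D.base Ω).phi_surj (p := p') R0
  have hRR : ph (ph R) = cl ((D.base Ω).PT m) := by
    rw [hph, phi_eq_iff.2 hR, phi_eq_iff.2 hR0]
  set b' : (Ω ≃ₐ[F] Ω) → ClassGroup (D.base Ω).A := fun σ => b σ / (D.mC (rs K σ) R / R) with hb'
  have hb'c : D.CocF b' := hb.coc.div (cob_coc D R)
  have hb'2 : ∀ σ, ph (ph (b' σ)) = 1 := by
    intro σ
    show ph (ph (b σ / (D.mC (rs K σ) R / R))) = 1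
    rw [_root_.map_div, _root_.map_div, _root_.map_div, _root_.map_div, hph, hb.sq, ← mC_phi,
      ← mC_phi, ← hph, hRR, D.mC_PT, div_self', div_one]
  set Q' : (Ω ≃ₐ[K] Ω) → ClassGroup (D.base Ω).A := fun τ => Q τ * R / D.mC (au τ) R with hQ'
  have hQ'1 : ∀ τ, Cmp (D := D) b' τ (Q' τ) := fun τ => (hQ1 τ).cob R
  have hQ'2 : ∀ τ, ph (ph (Q' τ)) = 1 := by
    intro τ
    show ph (ph (Q τ * R / D.mC (au τ) R)) = 1
    rw [_root_.map_div, _root_.map_div, map_mul, map_mul, hT0, one_mul, hph, ← mC_phi, ← mC_phi,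
      ← hph, hRR, D.mC_PT, div_self']
  have hB := hom_of_choice (D := D) hN (b := b') ph
    (fun φ x => by rw [hph, mC_phi]) (fun x => ph (ph x) = 1)
    (fun x y hx hy => by rw [map_mul, map_mul, hx, hy, one_mul])
    (fun x y hx hy => by rw [_root_.map_div, _root_.map_div, hx, hy, div_one])
    (fun φ x hx => by rw [hph, ← mC_phi, ← mC_phi, hx, map_one])
    (fun x hx => hx) (fun z hz h => hg2 hz h) hQ'1 hQ'2
  have hBG : ∀ σ : Ω ≃ₐ[F] Ω, ph (Q' (σ.restrictScalars K)) = ph (b' σ) := fun σ =>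
    hB.1 _ _ (Cmp.self hb'c σ) (hb'2 σ)
  refine ⟨R, m, fun τ => ph (Q' τ), ι, hRR, hQ'2, ⟨?_, fun σ τ => ?_⟩, hBG, ?_, ?_⟩
  · obtain ⟨U, hU, hU1⟩ := exists_open (D := D) hb'c
    refine locConst_of_hom hB.2 hU fun τ hτ => ?_
    rw [hB.1 τ 1 (hU1 τ hτ) (by rw [map_one, map_one]), map_one]
  · show ph (Q' (σ * τ)) = ph (Q' σ) * D.mC (au σ) (ph (Q' τ))
    rw [hB.2, mC_tor _ (hQ'2 τ)]
  · intro ρ σ h
    show ph (Q' (σ.restrictScalars K)) = 1
    rw [hBG]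
    refine mC_tor_inj (ι.restrictScalars K) (hb'2 σ) ?_
    have e5 : D.mC (ι.restrictScalars K) (b' σ) =
        D.mC (rs K ρ) (P / D.mC (ι.restrictScalars K) R) / (P / D.mC (ι.restrictScalars K) R) := by
      have c3 : (rs K ρ).comp (ι.restrictScalars K) = (ι.restrictScalars K).comp (rs K σ) :=
        AlgHom.ext fun x => h x
      show D.mC (ι.restrictScalars K) (b σ / (D.mC (rs K σ) R / R)) = _
      rw [_root_.map_div, hP ρ σ h, _root_.map_div, mC_mC, _root_.map_div, mC_mC, c3]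
      apply Additive.ofMul.injective
      simp only [ofMul_mul, ofMul_div, ofMul_inv, ofMul_one]
      abel
    have e6 : ph' (ph' (P / D.mC (ι.restrictScalars K) R)) = 1 := by
      rw [_root_.map_div, _root_.map_div, hPP, hph', ← mC_phi, ← mC_phi, ← hph, hRR, D.mC_PT,
        div_self']
    rw [hph, mC_phi, e5, _root_.map_div, ← mC_phi, mC_tor _ e6, div_self']
  · intro s hs
    obtain ⟨g, φ, τ, h1, h2, h3, h4, h5⟩ := exists_lft (Ω := Ω) hKF hs ι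
    refine ⟨g, φ, τ, h1, h2, h3, h4, h5, ?_⟩
    show ph (Q' τ) = 1
    have e5 : ∀ (ρ : Sep (Comp k'[X] F (pl θ)) ≃ₐ[Comp k'[X] F (pl θ)] Sep (Comp k'[X] F (pl θ)))
        (σ : Ω ≃ₐ[F] Ω), (∀ x : Ω, ρ (ι x) = ι (σ x)) → D.mC (ι.restrictScalars K) (b' σ) =
        D.mC (rs K ρ) (P / D.mC (ι.restrictScalars K) R) / (P / D.mC (ι.restrictScalars K) R) := by
      intro ρ σ h
      have c3 : (rs K ρ).comp (ι.restrictScalars K) = (ι.restrictScalars K).comp (rs K σ) :=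
        AlgHom.ext fun x => h x
      show D.mC (ι.restrictScalars K) (b σ / (D.mC (rs K σ) R / R)) = _
      rw [_root_.map_div, hP ρ σ h, _root_.map_div, mC_mC, _root_.map_div, mC_mC, c3]
      apply Additive.ofMul.injective
      simp only [ofMul_mul, ofMul_div, ofMul_inv, ofMul_one]
      abel
    have e6 : ph' (ph' (P / D.mC (ι.restrictScalars K) R)) = 1 := by
      rw [_root_.map_div, _root_.map_div, hPP, hph', ← mC_phi, ← mC_phi, ← hph, hRR, D.mC_PT,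
        div_self']
    have h6 := Cmp.loc (D := D) e5 h3 h4 (hQ'1 τ)
    generalize P / D.mC (ι.restrictScalars K) R = P' at *
    have h7 : ph' (ph' (D.mC (φ : _ →ₐ[K] _) P' / P' / D.mC (ι.restrictScalars K) (Q' τ))) = 1 := by
      rw [_root_.map_div, _root_.map_div, _root_.map_div, _root_.map_div, hph', ← mC_phi,
        ← mC_phi, ← mC_phi, ← mC_phi, ← hph', e6, map_one, div_one, ← hph, hQ'2, map_one, div_one]
    have h8 := tw2 (p := p) hS' h6 h7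
    rw [_root_.map_div, _root_.map_div, ← mC_phi, mC_tor _ e6, div_self', one_div, ← mC_phi]
      at h8
    exact mC_tor_inj (ι.restrictScalars K) (hQ'2 τ) (inv_eq_one.1 h8)

end

end Pool.Agent.J6H65.ST
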