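import Pool.Agent.Y713.TG.Kmm

/-!
Homomorphisms of the Galois group of the constants which are trivial on the stabiliser of a root.
-/

set_option autoImplicit false
set_option linter.all false

open Polynomial

namespace Pool.Agent.J6H65.ST

open Pool.Agent.Y713.SE

section
variable {k k' : Type} [Field k] [Field k'] [Algebra k k'] [IsGalois k k']

theorem kum_hom {ℓ : ℕ} (hp : ℓ.Prime) (hℓ : (ℓ : k') ≠ 0) {ζ : k}
    (hζ : IsPrimitiveRoot ζ ℓ) {π : k[X]} (hπ : Irreducible π) (hK : Kum ℓ π)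
    (ψ : (k' ≃ₐ[k] k') → ZMod ℓ) (hψ : ∀ s t, ψ (s * t) = ψ s + ψ t)
    {θ : k'} (hθ : aeval θ π = 0) (h0 : ∀ s : k' ≃ₐ[k] k', s θ = θ → ψ s = 0)
    (s : k' ≃ₐ[k] k') : ψ s = 0 := by
  classical
  have h1 : ψ 1 = 0 := by
    have := hψ 1 1
    rw [one_mul] at this
    simpa using this
  have hinv : ∀ s, ψ s⁻¹ = - ψ s := by
    intro s
    have := hψ s⁻¹ s
    rw [inv_mul_cancel, h1] at this
    exact (neg_eq_of_add_eq_zero_left this.symm).symm
  let r : k' → ZMod ℓ := fun x => if h : ∃ s : k' ≃ₐ[k] k', s θ = x then ψ h.choose else 0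
  have hr : ∀ s : k' ≃ₐ[k] k', r (s θ) = ψ s := by
    intro s
    have h : ∃ t : k' ≃ₐ[k] k', t θ = s θ := ⟨s, rfl⟩
    show (if h : ∃ t : k' ≃ₐ[k] k', t θ = s θ then ψ h.choose else 0) = ψ s
    rw [dif_pos h]
    have h2 : (s⁻¹ * h.choose) θ = θ := by
      rw [AlgEquiv.mul_apply, h.choose_spec]
      exact s.symm_apply_apply θ
    have h3 := h0 _ h2
    rw [hψ, hinv] at h3
    exact (neg_add_eq_zero.1 h3).symm
  have h4 := kum_const hp hℓ hζ hπ hK r (fun s => ⟨ψ s, fun θ' hθ' => by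
    obtain ⟨t, rfl⟩ := conj_roots hπ hθ hθ'
    have e : s (t θ) = (s * t) θ := rfl
    rw [e, hr, hr, hψ, add_sub_cancel_right]⟩) hθ s
  have h5 : r θ = 0 := by
    have := hr 1
    rw [h1] at this
    exact this
  rw [hr, h5] at h4
  exact h4

end

end Pool.Agent.J6H65.ST
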