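import Pool.Agent.Y713.TG.Gdd

/-!
Local analysis at a twist place.
-/

set_option autoImplicit false
set_option linter.all false

open Polynomial IsDedekindDomain

namespace Pool.Agent.J6H65.ST

open Pool.Agent.Y713.SE Pool.Agent.Y713.SE.Dat

variable {ℓ n : ℕ} {K : Type} [Field K] (D : Dat ℓ n K)
variable {F Ω : Type} [Field F] [Algebra K F] [Field Ω] [Algebra K Ω] [Algebra F Ω]
  [IsScalarTower K F Ω]

section lc
variable [IsGalois F Ω]

theorem map_lc (g : Polynomial Ω) :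
    IsLocallyConstant (fun σ : Ω ≃ₐ[F] Ω => g.map ((rs K σ : Ω →ₐ[K] Ω) : Ω →+* Ω)) := by
  induction g using Polynomial.induction_on' with
  | add p q hp hq =>
    have := hp.comp₂ hq (fun a b => a + b)
    convert this using 2
    rw [Polynomial.map_add]
  | monomial k r =>
    have := (locConst_apply (K := F) r).comp (fun a => monomial k a)
    convert this using 2
    simp

theorem mp_lc (a : (D.base Ω).A) :
    IsLocallyConstant (fun σ : Ω ≃ₐ[F] Ω => D.mp (rs K σ) a) := by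
  have h : ∀ s : Finset (Fin ℓ), IsLocallyConstant (fun σ : Ω ≃ₐ[F] Ω =>
      ∑ j ∈ s, (((D.base Ω).c j a).map ((rs K σ : Ω →ₐ[K] Ω) : Ω →+* Ω)) •
        (D.base Ω).y ^ (j : ℕ)) := by
    classical
    intro s
    induction s using Finset.induction_on with
    | empty => simp only [Finset.sum_empty]; exact IsLocallyConstant.const _
    | insert j s hj ih =>
      have h1 := (map_lc (K := K) (F := F) ((D.base Ω).c j a)).comp
        (fun g => g • (D.base Ω).y ^ (j : ℕ))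
      have h2 := h1.comp₂ ih (fun a b => a + b)
      convert h2 using 2
      rw [Finset.sum_insert hj]; rfl
  convert h Finset.univ using 2
  exact D.mp_eq _ _

theorem mI_lc (I : Ideal (D.base Ω).A) :
    IsLocallyConstant (fun σ : Ω ≃ₐ[F] Ω => D.mI (rs K σ) I) := by
  classical
  obtain ⟨s, rfl⟩ : ∃ s : Finset (D.base Ω).A, Ideal.span (s : Set (D.base Ω).A) = I :=
    (isNoetherianRing_iff_ideal_fg _).1 inferInstance I
  induction s using Finset.induction_on with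
  | empty =>
    convert IsLocallyConstant.const (⊥ : Ideal (D.base Ω).A) using 2
    unfold mI
    rw [Finset.coe_empty, Ideal.span_empty, Ideal.map_bot]; rfl
  | insert a s ha ih =>
    have h1 := (mp_lc D (F := F) a).comp (fun b => Ideal.span {b})
    have h2 := h1.comp₂ ih (fun a b => a ⊔ b)
    convert h2 using 2
    rw [Finset.coe_insert, Ideal.span_insert]
    unfold mI
    rw [Ideal.map_sup, Ideal.map_span, Set.image_singleton]; rfl

theorem mC_lc (c : ClassGroup (D.base Ω).A) :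
    IsLocallyConstant (fun σ : Ω ≃ₐ[F] Ω => D.mC (rs K σ) c) := by
  obtain ⟨I, hI, rfl⟩ := exists_cl c
  have h := (mI_lc D (F := F) I).comp (fun J => cl J)
  convert h using 2
  exact D.mC_cl _ hI

theorem cob_coc (T : ClassGroup (D.base Ω).A) :
    D.CocF (fun σ : Ω ≃ₐ[F] Ω => D.mC (rs K σ) T / T) := by
  refine ⟨(mC_lc D T).comp (fun a => a / T), fun σ τ => ?_⟩
  have e1 : (rs K σ).comp (rs K τ) = rs K (σ * τ) := AlgHom.ext fun x => rfl
  rw [_root_.map_div, mC_mC, e1, mul_comm, div_mul_div_cancel]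

end lc

section tw

variable (S : LS ℓ F Ω)

/-- The conditions at a twist place. -/
structure TwP : Prop where
  one : ∀ i j, i ≠ j → S.nrm ((D.base Ω).e i - (D.base Ω).e j) = 1
  disc : ∀ (a b : ℕ) (x : F), x ≠ 0 → S.nrm (D.base Ω).δ ^ a =
    S.nrm (algebraMap F Ω x) ^ ℓ * S.nrm (D.base Ω).δ ^ b → a ≡ b [MOD ℓ]

variable {D S}

theorem Lam_PT1 (h : TwP D S) (i : Fin n) (m : Fin n → ℕ) :
    D.Lam S i ((D.base Ω).PT m) = (S.nrm (D.base Ω).δ)⁻¹ ^ m i := by
  rw [Lam_PT, Finset.prod_eq_single i]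
  · congr 1
    rw [Lam_PP_self, nrm_ge, Finset.prod_eq_one, mul_one]
    intro j hj
    exact h.one i j (Finset.ne_of_mem_erase hj).symm
  · intro k _ hk
    rw [D.Lam_PP_ne S hk.symm, h.one i k hk.symm, one_pow]
  · intro h; exact absurd (Finset.mem_univ _) h

theorem mod_of_Lam (h : TwP D S) {i j : Fin n} {m : Fin n → ℕ} {x : F} (hx : x ≠ 0)
    (e : D.Lam S i ((D.base Ω).PT m) = S.nrm (algebraMap F Ω x) ^ ℓ *
      D.Lam S j ((D.base Ω).PT m)) : m i ≡ m j [MOD ℓ] := by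
  rw [Lam_PT1 h, Lam_PT1 h] at e
  have hδ0 : S.nrm (D.base Ω).δ ≠ 0 := S.nrm.ne_zero (D.base Ω).hδ
  refine (h.disc (m j) (m i) x hx ?_).symm
  rw [inv_pow, inv_pow] at e
  have e1 := pow_ne_zero (m i) hδ0
  have e2 := pow_ne_zero (m j) hδ0
  field_simp at e
  linear_combination e

/-- A fixed class which is killed by the square of `1 - s` is killed by `1 - s`. -/
theorem tw2 [IsGalois F Ω] [IsSepClosed Ω] {p : ℕ} [ExpChar Ω p] (h : TwP D S)
    {x : ClassGroup (D.base Ω).A} (hx : ∀ τ : Ω ≃ₐ[F] Ω, D.mC (rs K τ) x = x)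
    (h2 : (D.base Ω).phi ((D.base Ω).phi x) = 1) : (D.base Ω).phi x = 1 := by
  obtain ⟨m, hm⟩ := (D.base Ω).phi_ker (p := p) (phi_eq_one_iff.1 h2)
  rw [← cl_PT] at hm
  have hQ := phi_eq_iff.1 hm
  rw [hm]
  apply (D.base Ω).cl_PT_of_modEq
  intro i j
  have htop : (⊤ : Ideal (D.base Ω).A) ≠ ⊥ := top_ne_bot
  have hit : ∀ τ : Ω ≃ₐ[F] Ω, D.mI (rs K τ) (⊤ : Ideal (D.base Ω).A) = ⊤ := fun τ =>
    Ideal.map_top _
  obtain ⟨y, hy, e⟩ := D.locA S (χ := fun _ _ => 0) (R := x) (fun τ => by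
      rw [hx, (D.base Ω).cl_PT_of_modEq (fun i j => Nat.ModEq.refl _), mul_one]) (i := i) (j := j)
    (θ := 1) one_ne_zero (fun τ => by rw [map_one]) ((D.base Ω).PT_ne m) htop
    (fun τ => D.mI_PT _ m) hit (by rw [cl_top, one_mul]; exact hQ)
  rw [map_one, one_pow, one_mul, Lam_top, Lam_top, mul_one, mul_one] at e
  exact mod_of_Lam h hy e

/-- the same for all powers -/
theorem tw3 [IsGalois F Ω] [IsSepClosed Ω] {p : ℕ} [ExpChar Ω p] (h : TwP D S)
    {x : ClassGroup (D.base Ω).A} (hx : ∀ τ : Ω ≃ₐ[F] Ω, D.mC (rs K τ) x = x)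
    (h2 : (D.base Ω).phi ((D.base Ω).phi ((D.base Ω).phi x)) = 1) : (D.base Ω).phi x = 1 := by
  apply tw2 (p := p) h hx
  apply tw2 (p := p) h _ h2
  intro τ
  rw [mC_phi, hx]

/-- A fixed class is a torsion class up to the image of `1 - s` on the fixed classes. -/
theorem tw1 [IsGalois F Ω] [IsSepClosed Ω] {p : ℕ} [ExpChar Ω p] (h : TwP D S)
    {y : ClassGroup (D.base Ω).A} (hy : ∀ τ : Ω ≃ₐ[F] Ω, D.mC (rs K τ) y = y) :
    ∃ (m : Fin n → ℕ) (R : ClassGroup (D.base Ω).A), y = cl ((D.base Ω).PT m) * (D.base Ω).phi R ∧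
      ∀ τ : Ω ≃ₐ[F] Ω, D.mC (rs K τ) R = R := by
  obtain ⟨P, hP0⟩ := (D.base Ω).phi_surj (p := p) y
  have hP : (D.base Ω).phi P = y := phi_eq_iff.2 hP0
  have hχ : ∀ (P' : ClassGroup (D.base Ω).A), (∀ τ : Ω ≃ₐ[F] Ω, D.mC (rs K τ)
      ((D.base Ω).phi P') = (D.base Ω).phi P') → ∀ τ : Ω ≃ₐ[F] Ω, ∃ m : Fin n → ℕ,
        D.mC (rs K τ) P' = P' * cl ((D.base Ω).PT m) := by
    intro P' hP' τ
    have h1 : (D.base Ω).phi (D.mC (rs K τ) P' / P') = 1 := by
      rw [_root_.map_div, ← mC_phi, hP', div_self']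
    obtain ⟨m, hm⟩ := (D.base Ω).phi_ker (p := p) (phi_eq_one_iff.1 h1)
    rw [← cl_PT] at hm
    exact ⟨m, by rw [← hm, mul_div_cancel]⟩
  have h0 := hχ P (by intro τ; rw [hP, hy])
  choose χ0 h10 using h0
  obtain ⟨B, hB, hBinv, hBc⟩ := D.exists_B h10
  obtain ⟨μ, g, m, hμ, hg, hL⟩ := D.tame1 S (p := p) h.one hB hBinv
  obtain ⟨Q, hQ⟩ := (D.base Ω).phi_surj (p := p) (cl ((D.base Ω).PT m))
  have hφQ : (D.base Ω).phi Q = cl ((D.base Ω).PT m) := phi_eq_iff.2 hQ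
  obtain ⟨P', hP'⟩ : ∃ P', P' = P / Q := ⟨_, rfl⟩
  have hφP' : (D.base Ω).phi P' = y / cl ((D.base Ω).PT m) := by
    rw [hP', _root_.map_div, hP, hφQ]
  have h1 := hχ P' (by
    intro τ
    rw [hφP', _root_.map_div, hy, D.mC_PT (rs K τ)])
  choose χ1 h11 using h1
  have hcoc : D.CocF (fun τ : Ω ≃ₐ[F] Ω => cl ((D.base Ω).PT (χ1 τ))) := by
    have e1 : (fun τ : Ω ≃ₐ[F] Ω => cl ((D.base Ω).PT (χ1 τ))) =
        fun τ => D.mC (rs K τ) P' / P' := by
      funext τ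
      rw [h11, mul_div_cancel_left]
    rw [e1]
    exact cob_coc D P'
  obtain ⟨kd⟩ := D.exists_KF hcoc
  have hcl : cl B * (D.base Ω).sC P' = cl ((D.base Ω).PT m) * P' := by
    have h1 : cl ((D.base Ω).PT m) * (D.base Ω).sC Q = Q := hQ
    rw [hP', _root_.map_div]
    generalize (D.base Ω).sC Q = sq at *
    generalize (D.base Ω).sC P = sp at *
    generalize cl ((D.base Ω).PT m) = t at *
    generalize cl B = b at *
    rw [← h1, ← hBc, ← mul_div_assoc, ← mul_div_assoc, mul_div_mul_left_eq_div]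
  have hG : ∀ i j, S.Gam (S.nrm (kd.θ i j)) := fun i j =>
    D.gam_of S h11 (kd.h0 i j) (fun τ => kd.hθ τ i j) hB hBinv hcl hμ hg hL
  refine ⟨m, P', ?_, fun τ => ?_⟩
  · rw [hφP', mul_div_cancel]
  · rw [h11, (D.base Ω).cl_PT_of_modEq, mul_one]
    intro i j
    obtain ⟨x, hx, e⟩ := D.locB S h11 kd.h0 kd.hθ hG τ j i
    exact mod_of_Lam h hx e

end tw

end Pool.Agent.J6H65.ST
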