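import Pool.Agent.Y713.TG.Gdd
import Pool.Agent.J6H65.ST.Loc2

/-!
Lifting automorphisms of the constants to a completion and its separable closure.
-/

set_option autoImplicit false
set_option linter.all false

open Polynomial IsDedekindDomain

namespace Pool.Agent.J6H65.ST

open Pool.Agent.Y713.SE Pool.Agent.Y713.SE.Dat
open Pool.Agent.TH115.GD (pl Preserves Comp Sep exists_conj lift restr preserves val_poly)

section wv
variable {A Γ₀ : Type} [Field A] [LinearOrderedCommGroupWithZero Γ₀] (v : Valuation A Γ₀)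

theorem cont_congr (e : A ≃+* A) (he : ∀ x, v (e x) = v x) :
    Continuous (WithVal.congr v v e) := by
  apply continuous_of_continuousAt_zero (WithVal.congr v v e)
  rw [ContinuousAt, map_zero]
  rw [(Valued.hasBasis_nhds_zero (WithVal v) Γ₀).tendsto_iff
    (Valued.hasBasis_nhds_zero (WithVal v) Γ₀)]
  intro γ _
  refine ⟨γ, trivial, fun x hx => ?_⟩
  have h : (Valued.v : Valuation (WithVal v) Γ₀).restrict (WithVal.congr v v e x) =
      (Valued.v : Valuation (WithVal v) Γ₀).restrict x := by
    apply MonoidWithZeroHom.ValueGroup₀.embedding_strictMono.injective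
    rw [Valuation.embedding_restrict, Valuation.embedding_restrict]
    exact he _
  show (Valued.v : Valuation (WithVal v) Γ₀).restrict (WithVal.congr v v e x) < γ.1
  rw [h]
  exact hx

end wv

section cmp
variable {R F : Type} [CommRing R] [IsDedekindDomain R] [Field F] [Algebra R F] [IsFractionRing R F]
  (v : HeightOneSpectrum R)

/-- the extension of an automorphism to the completion -/
theorem exists_ext (e : F ≃+* F) (he : ∀ x, v.valuation F (e x) = v.valuation F x) :
    ∃ g : v.adicCompletion F ≃+* v.adicCompletion F,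
      (∀ x : F, g (algebraMap F _ x) = algebraMap F _ (e x)) ∧
      ∀ z : v.adicCompletion F, (Valued.v z : WithZero (Multiplicative ℤ)) < 1 →
        (Valued.v (g z) : WithZero (Multiplicative ℤ)) < 1 := by
  have hes : ∀ x, v.valuation F (e.symm x) = v.valuation F x := by
    intro x
    rw [← he (e.symm x), e.apply_symm_apply]
  have hc1 := cont_congr (v.valuation F) e he
  have hc2 := cont_congr (v.valuation F) e.symm hes
  let g0 : (v.valuation F).Completion ≃+* (v.valuation F).Completion :=
    UniformSpace.Completion.mapRingEquiv (WithVal.congr (v.valuation F) (v.valuation F) e) hc1 hc2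
  let g : v.adicCompletion F ≃+* v.adicCompletion F :=
    ((HeightOneSpectrum.adicCompletion.equiv F v).trans g0).trans
      (HeightOneSpectrum.adicCompletion.equiv F v).symm
  have hg : ∀ x : F, g (algebraMap F _ x) = algebraMap F _ (e x) := by
    intro x
    apply (HeightOneSpectrum.adicCompletion.equiv F v).injective
    show (HeightOneSpectrum.adicCompletion.equiv F v) ((HeightOneSpectrum.adicCompletion.equiv F v).symm
      (g0 (HeightOneSpectrum.adicCompletion.equiv F v (algebraMap F _ x)))) = _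
    rw [RingEquiv.apply_symm_apply]
    exact UniformSpace.Completion.mapRingHom_coe hc1 _
  have hgc : Continuous g := by
    have h1 : Continuous g0 := UniformSpace.Completion.continuous_map
    exact (HeightOneSpectrum.adicCompletion.continuous_ofCompletion F v).comp
      (h1.comp (HeightOneSpectrum.adicCompletion.continuous_toCompletion F v))
  refine ⟨g, hg, fun z hz => ?_⟩
  have hop : IsOpen {x : v.adicCompletion F |
      (Valued.v x : WithZero (Multiplicative ℤ)) < 1} := by
    have h1 := Valued.isOpen_ball (R := v.adicCompletion F) (Γ₀ := WithZero (Multiplicative ℤ)) 1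
    convert h1 using 3 with x
    exact (Valuation.restrict_lt_one_iff _).symm
  have h2 : IsOpen ({x : v.adicCompletion F | (Valued.v (z - x) : WithZero (Multiplicative ℤ)) < 1} ∩
      {x : v.adicCompletion F | (Valued.v (g z - g x) : WithZero (Multiplicative ℤ)) < 1}) := by
    refine IsOpen.inter ?_ ?_
    · exact hop.preimage (continuous_const.sub continuous_id)
    · exact hop.preimage (continuous_const.sub hgc)
  obtain ⟨x, hx1, hx2⟩ := (HeightOneSpectrum.denseRange_algebraMap F v).exists_mem_open h2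
    ⟨z, by simp⟩
  have hx3 : (Valued.v (algebraMap F (v.adicCompletion F) x) : WithZero (Multiplicative ℤ)) < 1 := by
    have e1 : algebraMap F (v.adicCompletion F) x = z - (z - algebraMap F _ x) := by ring
    rw [e1]
    exact (Valuation.map_sub _ _ _).trans_lt (max_lt hz hx1)
  have hx4 : (Valued.v (g (algebraMap F (v.adicCompletion F) x)) : WithZero (Multiplicative ℤ)) < 1 := by
    rw [hg, val_coe, he, ← val_coe]
    exact hx3
  have e2 : g z = (g z - g (algebraMap F _ x)) + g (algebraMap F _ x) := by ring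
  rw [e2]
  exact (Valuation.map_add _ _ _).trans_lt (max_lt hx2 hx4)

end cmp

section sep

theorem sepext_aux {E Ω' : Type} [Field E] [Field Ω'] (i1 : Algebra E Ω')
    (h1 : @IsSepClosure E _ Ω' _ i1) (i2 : Algebra E Ω') (h2 : @IsSepClosure E _ Ω' _ i2) :
    ∃ φ : Ω' ≃+* Ω', ∀ x, φ (@algebraMap E Ω' _ _ i1 x) = @algebraMap E Ω' _ _ i2 x := by
  let φ := @IsSepClosure.equiv E _ Ω' Ω' _ _ i2 h2 i1 h1
  exact ⟨@AlgEquiv.toRingEquiv E Ω' Ω' _ _ _ i1 i2 φ, fun x =>
    @AlgEquiv.commutes E Ω' Ω' _ _ _ i1 i2 φ x⟩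

variable {E Ω' : Type} [Field E] [Field Ω'] [i1 : Algebra E Ω'] [i2 : IsSepClosure E Ω']

theorem dvd_of_eval {E Ω' : Type} [Field E] [Field Ω'] (A2 : Algebra E Ω') (x : Ω') (p : E[X])
    (hp : p.Separable) (h : eval₂ (@algebraMap E Ω' _ _ A2) x p = 0) :
    @IsSeparable E Ω' _ _ A2 x :=
  Polynomial.Separable.of_dvd hp (minpoly.dvd E x h)

/-- the extension of an automorphism to the separable closure -/
theorem exists_sepext (g : E ≃+* E) :
    ∃ φ : Ω' ≃+* Ω', ∀ x, φ (algebraMap E Ω' x) = algebraMap E Ω' (g x) := by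
  have hs : Algebra.IsSeparable E Ω' := IsSepClosure.separable
  have hc : IsSepClosed Ω' := IsSepClosure.sep_closed E
  refine sepext_aux i1 i2 (((algebraMap E Ω').comp (g : E →+* E)).toAlgebra) ?_
  refine @IsSepClosure.mk E _ Ω' _ (((algebraMap E Ω').comp (g : E →+* E)).toAlgebra) hc ?_
  refine @Algebra.IsSeparable.mk E Ω' _ _ (((algebraMap E Ω').comp (g : E →+* E)).toAlgebra)
    fun x => ?_
  have h1 : (minpoly E x).Separable := Algebra.IsSeparable.isSeparable E x
  have h3 : ((minpoly E x).map (g.symm : E →+* E)).Separable := h1.map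
  refine dvd_of_eval _ x _ h3 ?_
  show eval₂ ((algebraMap E Ω').comp (g : E →+* E)) x ((minpoly E x).map (g.symm : E →+* E)) = 0
  rw [eval₂_map, RingHom.comp_assoc]
  have e2 : (g : E →+* E).comp (g.symm : E →+* E) = RingHom.id E := by
    ext y; simp
  rw [e2, RingHom.comp_id]
  exact minpoly.aeval E x

end sep

section lft
variable {k k' K F Ω : Type} [Field k] [Field k'] [Algebra k k'] [IsSepClosure k k']
  [Field K] [Algebra k[X] K] [IsFractionRing k[X] K] [Field F] [Algebra k'[X] F]
  [IsFractionRing k'[X] F] [Algebra K F] [Field Ω] [Algebra F Ω] [Algebra K Ω]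
  [IsScalarTower K F Ω] [IsGalois K Ω]
  (hKF : ∀ p : k[X], algebraMap K F (algebraMap k[X] K p) =
    algebraMap k'[X] F (p.map (algebraMap k k')))

/-- the automorphism of `k'(t)` -/
noncomputable def eF (F : Type) [Field F] [Algebra k'[X] F] [IsFractionRing k'[X] F]
    (s : k' ≃ₐ[k] k') : F ≃+* F :=
  IsFractionRing.ringEquivOfRingEquiv (A := k'[X]) (B := k'[X])
    (Polynomial.mapEquiv (s : k' ≃+* k'))

theorem eF_poly (s : k' ≃ₐ[k] k') (p : k'[X]) : eF F s (algebraMap k'[X] F p) =
    algebraMap k'[X] F (p.map (s : k' →+* k')) :=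
  IsFractionRing.ringEquivOfRingEquiv_algebraMap _ p

include hKF in
theorem eF_K (s : k' ≃ₐ[k] k') (x : K) : eF F s (algebraMap K F x) = algebraMap K F x := by
  have hfix : ∀ p : k[X], (p.map (algebraMap k k')).map (s : k' →+* k') =
      p.map (algebraMap k k') := by
    intro p
    rw [Polynomial.map_map]
    congr 1
    ext x
    exact s.commutes x
  obtain ⟨n, d, hd, rfl⟩ := IsFractionRing.div_surjective (A := k[X]) x
  rw [map_div₀, map_div₀, hKF, hKF, eF_poly, eF_poly, hfix, hfix]

theorem eF_val (s : k' ≃ₐ[k] k') {θ : k'} (hs : s θ = θ) (x : F) :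
    (pl θ).valuation F (eF F s x) = (pl θ).valuation F x := by
  have hinj : Function.Injective (s : k' →+* k') := s.injective
  have h : ∀ p : k'[X], (pl θ).valuation F (eF F s (algebraMap k'[X] F p)) =
      (pl θ).valuation F (algebraMap k'[X] F p) := by
    intro p
    by_cases hp : p = 0
    · subst hp; rw [map_zero, map_zero]
    rw [eF_poly, val_poly θ hp, val_poly θ ((Polynomial.map_ne_zero_iff hinj).2 hp)]
    have h1 := eq_rootMultiplicity_map (p := p) hinj θ
    rw [h1]
    have h2 : (s : k' →+* k') θ = θ := hs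
    rw [h2]
  obtain ⟨n, d, hd, rfl⟩ := IsFractionRing.div_surjective (A := k'[X]) x
  rw [map_div₀, map_div₀, map_div₀, h, h]

include hKF in
/-- the lifts of an automorphism of the constants which fixes `θ` -/
theorem exists_lft {θ : k'} {s : k' ≃ₐ[k] k'} (hs : s θ = θ)
    (ι : Ω →ₐ[F] Sep (Comp k'[X] F (pl θ))) :
    ∃ (g : Comp k'[X] F (pl θ) ≃+* Comp k'[X] F (pl θ))
      (φ : Sep (Comp k'[X] F (pl θ)) ≃ₐ[K] Sep (Comp k'[X] F (pl θ))) (τ : Ω ≃ₐ[K] Ω),
      (∀ x : F, g (algebraMap F _ x) = algebraMap F _ (eF F s x)) ∧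
      (∀ z : (pl θ).adicCompletion F, (Valued.v z : WithZero (Multiplicative ℤ)) < 1 →
        (Valued.v (show (pl θ).adicCompletion F from g z) : WithZero (Multiplicative ℤ)) < 1) ∧
      (∀ x, φ (algebraMap (Comp k'[X] F (pl θ)) _ x) = algebraMap (Comp k'[X] F (pl θ)) _ (g x)) ∧
      (∀ x, φ (ι x) = ι (τ x)) ∧ ∀ x : F, τ (algebraMap F Ω x) = algebraMap F Ω (eF F s x) := by
  obtain ⟨g, hg1, hg2⟩ := exists_ext (F := F) (pl θ) (eF F s) (eF_val s hs)
  let g' : Comp k'[X] F (pl θ) ≃+* Comp k'[X] F (pl θ) := g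
  obtain ⟨φ0, hφ0⟩ := exists_sepext (Ω' := Sep (Comp k'[X] F (pl θ))) g'
  have hφK : ∀ x : K, φ0 (algebraMap K _ x) = algebraMap K _ x := by
    intro x
    have e1 : ∀ x : K, algebraMap K (Sep (Comp k'[X] F (pl θ))) x =
        algebraMap (Comp k'[X] F (pl θ)) _ (algebraMap F (Comp k'[X] F (pl θ))
          (algebraMap K F x)) := fun x => rfl
    rw [e1, hφ0]
    congr 1
    refine (hg1 _).trans ?_
    rw [eF_K hKF]
    rfl
  let φ : Sep (Comp k'[X] F (pl θ)) ≃ₐ[K] Sep (Comp k'[X] F (pl θ)) :=
    AlgEquiv.ofRingEquiv (f := φ0) hφK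
  obtain ⟨τ, hτ⟩ := exists_restr (ι.restrictScalars K) φ
  refine ⟨g', φ, τ, hg1, hg2, hφ0, hτ, fun x => ?_⟩
  apply ι.toRingHom.injective
  have h1 := hτ (algebraMap F Ω x)
  have e1 : (ι.restrictScalars K) (algebraMap F Ω x) =
      algebraMap (Comp k'[X] F (pl θ)) _ (algebraMap F (Comp k'[X] F (pl θ)) x) :=
    ι.commutes x
  rw [e1] at h1
  refine h1.symm.trans ?_
  refine (hφ0 _).trans ?_
  rw [show g' (algebraMap F (Comp k'[X] F (pl θ)) x) = _ from hg1 x]
  exact (ι.commutes _).symm

end lft

end Pool.Agent.J6H65.ST
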