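import Pool.Agent.J6H65.ST.Frm
import Pool.Agent.J6H65.ST.Cor
import Pool.Agent.Y713.TG.StmB

/-!
The vanishing of the invariant classes for twists.
-/

set_option autoImplicit false
set_option linter.all false

open Polynomial IsDedekindDomain

namespace Pool.Agent.J6H65.ST

open Pool.Agent.Y713.SE Pool.Agent.Y713.SE.Dat
open Pool.Agent.Y160.SE (Jac jm IsTC IsTM IsCoc LocTriv IsInv nrm jm_jm)
open Pool.Agent.TH115.GD (pl Preserves Comp Sep exists_conj lift restr preserves incl ak IsTower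
  sepKΩ)

section fix
variable {ℓ n : ℕ} {k' K F : Type} [Field k']
  [Field K] [Field F] [Algebra k'[X] F]
  [IsFractionRing k'[X] F] [Algebra K F]
  {D : Dat ℓ n K} {v : HeightOneSpectrum k'[X]}
  (hS : ∃ S : LS ℓ (Comp k'[X] F v) (Sep (Comp k'[X] F v)), TwP D S)

include hS in
theorem fix_lamD (N : ℕ) : ∀ x : Jac ℓ D.f (Sep F),
    (∀ σ : Sep F ≃ₐ[F] Sep F, jm ℓ D.f (Pool.Agent.TH115.GD.rs K σ) x = x) →
    pD D (Sep F) ((1 - X) ^ N) x = 0 → pD D (Sep F) (1 - X) x = 0 := by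
  induction N with
  | zero =>
    intro x hx h
    rw [pow_zero, pD_one] at h
    rw [h, map_zero]
  | succ N ih =>
    intro x hx h
    rcases Nat.eq_zero_or_pos N with rfl | hN
    · rwa [zero_add, pow_one] at h
    apply ih x hx
    obtain ⟨M, rfl⟩ : ∃ M, N = M + 1 := ⟨N - 1, by omega⟩
    set z := pD D (Sep F) ((1 - X) ^ M) x with hz
    have hzf : ∀ σ : Sep F ≃ₐ[F] Sep F, jm ℓ D.f (Pool.Agent.TH115.GD.rs K σ) z = z := fun σ => by
      rw [hz, jm_pD, hx]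
    have h2 : pD D (Sep F) (1 - X) (pD D (Sep F) (1 - X) z) = 0 := by
      rw [hz, ← pD_mul, ← pD_mul]
      have e1 : ((1 : ℤ[X]) - X) * (1 - X) * (1 - X) ^ M = (1 - X) ^ (M + 1 + 1) := by ring
      rw [e1, h]
    have h3 : pD D (Sep F) (1 - X) z = 0 := by
      apply D.tj_inj
      rw [tj_lamD, D.tj_zero]
      refine gtw2 hS (fun σ => ?_) ?_
      · have := congrArg (D.tj (Sep F)) (hzf σ)
        rw [D.tj_jm] at this
        exact this
      · have := congrArg (D.tj (Sep F)) h2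
        rwa [tj_lamD, tj_lamD, D.tj_zero] at this
    have e2 : ((1 : ℤ[X]) - X) ^ (M + 1) = (1 - X) * (1 - X) ^ M := by ring
    rw [e2, pD_mul, ← hz, h3]

variable [IsGalois K (Sep F)] (hN : Preserves K F (Sep F))

include hS hN in
/-- the second layer -/
theorem exists_L2D {c : ℕ → (Sep F ≃ₐ[F] Sep F) → Jac ℓ D.f (Sep F)}
    (hc : OT ℓ k' D.f c) :
    ∃ b : (Sep F ≃ₐ[F] Sep F) → ClassGroup (D.base (Sep F)).A, L2 (F := F) D k' b ∧
      ∀ σ, (D.base (Sep F)).phi (b σ) =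
        D.tj (Sep F) (pD D (Sep F) ((1 - X) ^ (ℓ - 2)) (c 1 σ)) := by
  have h2 := D.hp.two_le
  obtain ⟨W, hW⟩ := exists_W1D D
  obtain ⟨U, hU⟩ := exists_UD D
  set V : ℤ[X] := U * (1 - X) ^ (2 * ℓ - 4) with hV
  have hV1 : (1 - X) * V = (1 - X) ^ (ℓ - 2) * (U * (1 - X) ^ (ℓ - 1)) := by
    have e1 : ((1 : ℤ[X]) - X) ^ (ℓ - 2) * (1 - X) ^ (ℓ - 1) = (1 - X) * (1 - X) ^ (2 * ℓ - 4) := by
      rw [← pow_add, ← pow_succ']
      congr 1
      omega
    rw [hV]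
    linear_combination (-U) * e1
  have hphi : ∀ σ, (D.base (Sep F)).phi (D.tj (Sep F) (pD D (Sep F) V (c 2 σ))) =
      D.tj (Sep F) (pD D (Sep F) ((1 - X) ^ (ℓ - 2)) (c 1 σ)) := by
    intro σ
    rw [← tj_lamD, ← pD_mul, hV1, pD_mul, ← hU, hc.tc.step 1 σ]
  have hc1 : ∀ σ, ℓ • c 1 σ = 0 := fun σ => by rw [hc.tc.step 0 σ, hc.tc.zero]
  have hfix : ∀ σ, (D.base (Sep F)).phi
      (D.tj (Sep F) (pD D (Sep F) ((1 - X) ^ (ℓ - 2)) (c 1 σ))) = 1 := by
    intro σ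
    rw [← tj_lamD, ← pD_mul, ← pow_succ', show ℓ - 2 + 1 = ℓ - 1 by omega, hW, ← map_nsmul, hc1,
      map_zero, D.tj_zero]
  have hcoc := coc_pD D (hc.tc.coc 2) V
  refine ⟨fun σ => D.tj (Sep F) (pD D (Sep F) V (c 2 σ)),
    ⟨⟨hcoc.lc.comp (D.tj (Sep F)), fun σ τ => ?_⟩, fun σ => ?_, fun v => ?_, fun τ => ?_⟩, hphi⟩
  · show D.tj (Sep F) (pD D (Sep F) V (c 2 (σ * τ))) = _
    rw [hcoc.mul σ τ, D.tj_add, D.tj_jm]
    rfl
  · rw [hphi, hfix]
  · obtain ⟨ι, P, hP⟩ := loc_pD D (hc.loc 2 v) V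
    refine ⟨ι, D.tj _ P, fun τ σ hτσ => ?_⟩
    have h1 := congrArg (D.tj _) (hP τ σ hτσ)
    rw [D.tj_jm, D.tj_sub, D.tj_jm] at h1
    exact h1
  · obtain ⟨m, Q, hQ, hinv⟩ := hc.inv τ
    have hpow : ∀ (k n : ℕ) (σ), ℓ ^ k • c (k + n) σ = c n σ := by
      intro k
      induction k with
      | zero => intro n σ; rw [pow_zero, one_smul, zero_add]
      | succ k ih =>
        intro n σ
        rw [pow_succ, mul_smul, show k + 1 + n = (k + n) + 1 by omega, hc.tc.step, ih]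
    have hQpow : ∀ (k : ℕ), ℓ ^ k • Q k = 0 := by
      intro k
      induction k with
      | zero => rw [hQ.zero, smul_zero]
      | succ k ih =>
        rw [pow_succ, mul_smul, hQ.step, ih]
    have hQfix : ∀ σ : Sep F ≃ₐ[F] Sep F,
        jm ℓ D.f (Pool.Agent.TH115.GD.rs K σ) (Q m) = Q m := by
      intro σ
      obtain ⟨σ', hσ'⟩ := exists_conj hN τ σ
      have h1 := hinv m σ σ' hσ'
      have h3 := hpow m 0 σ
      have h4 := hpow m 0 σ'
      rw [add_zero, hc.tc.zero] at h3 h4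
      rw [smul_sub, ← map_nsmul, h3, h4, map_zero, sub_zero] at h1
      exact (sub_eq_zero.1 h1.symm)
    have hWn : ∀ (n : ℕ) (x : Jac ℓ D.f (Sep F)), pD D (Sep F) ((1 - X) ^ ((ℓ - 1) * n)) x =
        pD D (Sep F) (W ^ n) (ℓ ^ n • x) := by
      intro n
      induction n with
      | zero => intro x; rw [mul_zero, pow_zero, pow_zero, pow_zero, one_smul]
      | succ n ih =>
        intro x
        rw [mul_add, mul_one, pow_add, pD_mul, hW, ih, pow_succ W, pD_mul, pow_succ ℓ, mul_smul,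
          ← map_nsmul, ← map_nsmul, smul_comm]
    have hQm : pD D (Sep F) (1 - X) (Q m) = 0 := by
      refine fix_lamD hS ((ℓ - 1) * m) (Q m) hQfix ?_
      rw [hWn, hQpow, map_zero]
    set T := pD D (Sep F) V (Q (m + 2)) with hT
    have hV2 : (1 - X) * ((1 - X) * V) = (1 - X) ^ (ℓ - 1) * (U * (1 - X) ^ (ℓ - 1)) := by
      rw [hV1]
      have e1 : ((1 : ℤ[X]) - X) * (1 - X) ^ (ℓ - 2) = (1 - X) ^ (ℓ - 1) := by
        rw [← pow_succ']
        congr 1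
        omega
      rw [← mul_assoc, e1]
    have hT1 : pD D (Sep F) (1 - X) (pD D (Sep F) (1 - X) T) = pD D (Sep F) W (Q m) := by
      rw [hT, ← pD_mul, ← pD_mul, mul_assoc, hV2, pD_mul, ← hU, hW, ← map_nsmul]
      congr 1
      rw [hQ.step, hQ.step]
    have hT2 : (D.base (Sep F)).phi ((D.base (Sep F)).phi ((D.base (Sep F)).phi (D.tj _ T))) = 1 := by
      rw [← tj_lamD, ← tj_lamD, ← tj_lamD, hT1, pD_comm, hQm, map_zero, D.tj_zero]
    refine ⟨D.tj _ T, fun σ σ' h => ?_, hT2⟩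
    have h1 := hinv (m + 2) σ σ' h
    rw [smul_sub, ← map_nsmul, hpow m 2, hpow m 2] at h1
    have h3 := congrArg (pD D (Sep F) V) h1
    rw [map_sub, ← jm_pD, map_sub, ← jm_pD, ← hT] at h3
    have h4 := congrArg (D.tj (Sep F)) h3
    rw [D.tj_sub, D.tj_sub, D.tj_jm, D.tj_jm, div_eq_iff_eq_mul, mul_comm] at h4
    exact h4

end fix

section main
variable {ℓ n : ℕ} {k k' K F : Type} [Field k] [Field k'] [Algebra k k']
  [Field K] [Algebra k[X] K] [Field F] [Algebra k'[X] F]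
  [IsFractionRing k'[X] F] [Algebra K F]

theorem no_classes0 (hT : IsTower k k' K F) [IsFractionRing k[X] K] {D : Dat ℓ n K}
    {T : Finset k[X]} {D1 : k[X]} (hC : Cnd D T D1) (hℓ : (ℓ : k) ≠ 0) {ζ : k}
    (hζ : IsPrimitiveRoot ζ ℓ) {c : ℕ → (Sep F ≃ₐ[F] Sep F) → Jac ℓ D.f (Sep F)}
    (hc : OT ℓ k' D.f c) (N : ℕ) :
    ∃ (P : Jac ℓ D.f K) (R : Jac ℓ D.f (Sep F)), ℓ • P = 0 ∧
      ℓ ^ N • R = jm ℓ D.f (incl K K (Sep F)) P ∧
      ∀ σ, c N σ = jm ℓ D.f (Pool.Agent.TH115.GD.rs K σ) R - R := by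
  haveI := hT.sep
  haveI : IsSepClosed k' := IsSepClosure.sep_closed k
  haveI : IsSepClosure K (Sep F) := sepKΩ hT.map
  haveI : Algebra.IsSeparable K (Sep F) := IsSepClosure.separable
  haveI : IsGalois K (Sep F) := inferInstance
  have hℓ' : (ℓ : k') ≠ 0 := by
    rw [← map_natCast (algebraMap k k')]
    exact (_root_.map_ne_zero _).2 hℓ
  obtain ⟨θ, hθ⟩ : ∃ θ : k', aeval θ D1 = 0 := by
    have h1 : (D1.map (algebraMap k k')).Splits := IsSepClosed.splits_of_separable _ hC.sep.map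
    have h2 : (D1.map (algebraMap k k')).degree ≠ 0 := by
      rw [degree_map]
      exact (degree_pos_of_irreducible hC.irr).ne'
    obtain ⟨θ, hθ⟩ := h1.exists_eval_eq_zero h2
    exact ⟨θ, by rwa [eval_map_algebraMap] at hθ⟩
  refine no_of_first D (fun c hc => ?_) hc N
  obtain ⟨b, hb, hbc⟩ := exists_L2D (hC.twp hT.map hθ hℓ') (preserves hT.map) hc
  obtain ⟨R, m, h1, h2⟩ := core hT.map hC hθ hℓ' hζ hb
  obtain ⟨P', hP'⟩ := D.tj_surj K (cl ((D.base K).PT m))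
  obtain ⟨R', hR'⟩ := D.tj_surj (Sep F) ((D.base (Sep F)).phi R)
  refine ⟨P', R', ?_, ?_, fun σ => ?_⟩
  · apply D.tj_inj
    rw [tj_lamD, D.tj_zero, hP', phi_eq_one_iff, sC_cl _ ((D.base K).PT_ne _), sI_PT]
  · apply D.tj_inj
    rw [tj_lamD, D.tj_jm, hP', hR', h1, D.mC_PT]
  · apply D.tj_inj
    rw [D.tj_sub, D.tj_jm, hR', ← hbc, h2]
    rfl

end main

end Pool.Agent.J6H65.ST
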