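import Pool.Agent.J6H65.ST.Thd

/-!
Continuity of the extension.
-/

set_option autoImplicit false
set_option linter.all false

open Polynomial IsDedekindDomain

namespace Pool.Agent.J6H65.ST

open Pool.Agent.Y713.SE Pool.Agent.Y713.SE.Dat
open Pool.Agent.TH115.GD (pl Preserves Comp Sep exists_conj lift restr preserves val_poly
  exists_restrict)
open scoped Topology

section
variable {ℓ n : ℕ} {K F Ω : Type} [Field K] [Field F] [Algebra K F] [Field Ω] [Algebra F Ω]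
  [Algebra K Ω] [IsScalarTower K F Ω] [IsGalois F Ω] [IsGalois K Ω] [IsSepClosed Ω] {D : Dat ℓ n K}

theorem exists_open {b : (Ω ≃ₐ[F] Ω) → ClassGroup (D.base Ω).A} (hb : D.CocF b) :
    ∃ U ∈ 𝓝 (1 : Ω ≃ₐ[K] Ω), ∀ τ ∈ U, Cmp (D := D) b τ 1 := by
  classical
  have h11 : b 1 = 1 := by
    have h := hb.2 1 1
    have e : rs K (1 : Ω ≃ₐ[F] Ω) = AlgHom.id K Ω := rfl
    rw [mul_one, e, mC_id] at h
    exact (mul_eq_left.1 h.symm)
  have hfin : (Set.range b).Finite := hb.1.range_finite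
  have hV : ∀ᶠ τ in 𝓝 (1 : Ω ≃ₐ[K] Ω), ∀ c ∈ Set.range b, D.mC (au τ) c = c := by
    rw [Filter.eventually_all_finite hfin]
    intro c _
    have h := D.mC_locConst (L := Ω) c
    have h2 := (IsLocallyConstant.iff_eventually_eq _).1 h 1
    refine h2.mono fun τ hτ => ?_
    rw [hτ]
    have e : au (1 : Ω ≃ₐ[K] Ω) = AlgHom.id K Ω := rfl
    rw [e, mC_id]
  have h1 : {σ : Ω ≃ₐ[F] Ω | b σ = 1} ∈ 𝓝 (1 : Ω ≃ₐ[F] Ω) := by
    have h2 := (IsLocallyConstant.iff_eventually_eq _).1 hb.1 1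
    rw [h11] at h2
    exact h2
  obtain ⟨E, hE, hEb⟩ := (krullTopology_mem_nhds_one_iff F Ω _).1 h1
  haveI := hE
  let B := Module.finBasis F E
  let S : Set Ω := Set.range fun i => (B i : Ω)
  have hSf : S.Finite := Set.finite_range _
  let N0 : IntermediateField K Ω := IntermediateField.adjoin K S
  haveI : FiniteDimensional K N0 :=
    IntermediateField.finiteDimensional_adjoin (fun x _ => Algebra.IsIntegral.isIntegral x)
  let N : IntermediateField K Ω := IntermediateField.normalClosure K N0 Ω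
  have hNS : ∀ x ∈ S, x ∈ N := fun x hx =>
    IntermediateField.le_normalClosure N0 (IntermediateField.subset_adjoin K S hx)
  have hNn : ∀ (σ : Ω ≃ₐ[K] Ω), ∀ x ∈ N, σ x ∈ N := by
    intro σ x hx
    haveI : Normal K N := inferInstance
    exact (IntermediateField.normal_iff_forall_map_le'.1 this σ) ⟨x, hx, rfl⟩
  have hNo : (N.fixingSubgroup : Set (Ω ≃ₐ[K] Ω)) ∈ 𝓝 (1 : Ω ≃ₐ[K] Ω) :=
    N.fixingSubgroup_isOpen.mem_nhds (one_mem _)
  refine ⟨(N.fixingSubgroup : Set (Ω ≃ₐ[K] Ω)) ∩ {τ | ∀ c ∈ Set.range b, D.mC (au τ) c = c},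
    Filter.inter_mem hNo hV, ?_⟩
  rintro τ ⟨hτN, hτV⟩ σ σ' h
  have hτN' : ∀ x ∈ N, τ x = x := fun x hx => hτN ⟨x, hx⟩
  have hw : ∀ x ∈ N, (σ⁻¹ * σ' : Ω ≃ₐ[F] Ω) x = x := by
    intro x hx
    have h1 : σ' x = σ x := by
      apply τ.injective
      rw [h, hτN' x hx]
      exact (hτN' _ (hNn (σ.restrictScalars K) x hx)).symm
    rw [AlgEquiv.mul_apply, h1]
    exact σ.symm_apply_apply x
  have hwb : b (σ⁻¹ * σ') = 1 := by
    apply hEb
    rintro ⟨x, hx⟩
    show (σ⁻¹ * σ' : Ω ≃ₐ[F] Ω) x = x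
    have e1 := congrArg (fun y : E => (y : Ω)) (B.sum_repr ⟨x, hx⟩)
    simp only [IntermediateField.coe_sum, IntermediateField.coe_smul] at e1
    rw [← e1, map_sum]
    refine Finset.sum_congr rfl fun i _ => ?_
    rw [map_smul]
    congr 1
    exact hw _ (hNS _ ⟨i, rfl⟩)
  have e2 : σ' = σ * (σ⁻¹ * σ') := by group
  have e3 : b σ' = b σ := by
    rw [e2, hb.2, hwb, map_one, mul_one]
  rw [e3, hτV _ ⟨σ, rfl⟩, map_one, div_one, mul_one]

theorem locConst_of_hom {G A : Type} [Group G] [TopologicalSpace G] [ContinuousMul G] [Group A]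
    {T : G → A}
    (hT : ∀ τ τ', T (τ * τ') = T τ * T τ') {U : Set G} (hU : U ∈ 𝓝 (1 : G))
    (h1 : ∀ τ ∈ U, T τ = 1) : IsLocallyConstant T := by
  rw [IsLocallyConstant.iff_eventually_eq]
  intro τ
  have hc : Filter.Tendsto (fun y : G => τ⁻¹ * y) (𝓝 τ) (𝓝 1) := by
    have : ContinuousAt (fun y : G => τ⁻¹ * y) τ := (continuous_mul_left τ⁻¹).continuousAt
    have h2 := this.tendsto
    rwa [inv_mul_cancel] at h2
  filter_upwards [hc hU] with y hy
  have h3 := h1 _ hy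
  have e : y = τ * (τ⁻¹ * y) := by group
  rw [e, hT, h3, mul_one]

end

end Pool.Agent.J6H65.ST
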