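import Pool.Agent.J6H65.ST.Loc2
import Pool.Agent.Y713.TG.Pla

/-!
The twist place of `k'(t)`.
-/

set_option autoImplicit false
set_option linter.all false

open Polynomial IsDedekindDomain

namespace Pool.Agent.J6H65.ST

open Pool.Agent.Y713.SE Pool.Agent.Y713.SE.Dat
open Pool.Agent.TH115.GD (pl Preserves Comp Sep exists_conj lift restr preserves val_poly)

section
variable {ℓ n : ℕ} {k' K F : Type} [Field k'] [Field K] [Field F] [Algebra k'[X] F]
  [IsFractionRing k'[X] F] [Algebra K F] (D : Dat ℓ n K)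

theorem exists_twp (hℓ : (ℓ : k') ≠ 0) (v : HeightOneSpectrum k'[X])
    (h1 : ∀ i j, i ≠ j → v.valuation F (algebraMap K F (D.e i - D.e j)) = 1)
    (h2 : ¬ Pw ℓ (v.valuation F (algebraMap K F D.δ))) :
    ∃ S : LS ℓ (Comp k'[X] F v) (Sep (Comp k'[X] F v)), TwP D S := by
  letI i1 : Algebra K (v.adicCompletion F) := (inferInstance : Algebra K (Comp k'[X] F v))
  haveI i2 : IsScalarTower K F (v.adicCompletion F) :=
    (inferInstance : IsScalarTower K F (Comp k'[X] F v))
  letI i3 : Algebra (v.adicCompletion F) (Sep (Comp k'[X] F v)) :=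
    (inferInstance : Algebra (Comp k'[X] F v) (Sep (Comp k'[X] F v)))
  haveI i4 : IsScalarTower F (v.adicCompletion F) (Sep (Comp k'[X] F v)) :=
    (inferInstance : IsScalarTower F (Comp k'[X] F v) (Sep (Comp k'[X] F v)))
  haveI i5 : IsScalarTower K (v.adicCompletion F) (Sep (Comp k'[X] F v)) :=
    (inferInstance : IsScalarTower K (Comp k'[X] F v) (Sep (Comp k'[X] F v)))
  haveI i6 : IsGalois (v.adicCompletion F) (Sep (Comp k'[X] F v)) :=
    (inferInstance : IsGalois (Comp k'[X] F v) (Sep (Comp k'[X] F v)))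
  obtain ⟨S, hS⟩ := exists_LSv (K := F) v ℓ (Sep (Comp k'[X] F v)) (val_nat (F := F) hℓ v)
  replace hS : Cpt S := hS
  have hmap : ∀ x : K, algebraMap K (Sep (Comp k'[X] F v)) x =
      algebraMap F (Sep (Comp k'[X] F v)) (algebraMap K F x) := fun x => rfl
  refine ⟨S, ⟨fun i j hij => ?_, fun a b x hx he => ?_⟩⟩
  · show S.nrm ((D.base (Sep (Comp k'[X] F v))).e i - (D.base (Sep (Comp k'[X] F v))).e j) = 1
    rw [D.e_sub, hmap]
    exact hS.one (h1 i j hij)
  · set d : F := algebraMap K F D.δ with hd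
    have hvδ0 : v.valuation F d ≠ 0 :=
      (Valuation.ne_zero_iff _).2 ((_root_.map_ne_zero _).2 D.hδ)
    have hδe : (D.base (Sep (Comp k'[X] F v))).δ =
      algebraMap (v.adicCompletion F) (Sep (Comp k'[X] F v))
        (algebraMap F (v.adicCompletion F) d) := rfl
    have he' : S.nrm (D.base (Sep (Comp k'[X] F v))).δ ^ a =
      S.nrm (algebraMap (v.adicCompletion F) (Sep (Comp k'[X] F v)) x) ^ ℓ *
        S.nrm (D.base (Sep (Comp k'[X] F v))).δ ^ b := he
    rw [hδe] at he'
    have h4 : (v.valuation F d) ^ a =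
        (Valued.v (show v.adicCompletion F from x) : WithZero (Multiplicative ℤ)) ^ ℓ *
          (v.valuation F d) ^ b := by
      have h5 : S.nrm (algebraMap (v.adicCompletion F) (Sep (Comp k'[X] F v))
          ((algebraMap F (v.adicCompletion F) d) ^ a)) =
          S.nrm (algebraMap (v.adicCompletion F) (Sep (Comp k'[X] F v))
          ((show v.adicCompletion F from x) ^ ℓ * (algebraMap F (v.adicCompletion F) d) ^ b)) := by
        rw [map_pow (algebraMap (v.adicCompletion F) (Sep (Comp k'[X] F v))),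
          map_mul (algebraMap (v.adicCompletion F) (Sep (Comp k'[X] F v))),
          map_pow (algebraMap (v.adicCompletion F) (Sep (Comp k'[X] F v))),
          map_pow (algebraMap (v.adicCompletion F) (Sep (Comp k'[X] F v))), map_pow, map_mul,
          map_pow, map_pow]
        exact he'
      rw [hS.eq_iff, map_pow, map_mul, map_pow, map_pow, val_coe] at h5
      exact h5
    by_contra hne
    apply h2
    have hℓ1 := D.hp.one_lt
    have hcop : Nat.Coprime (a + (ℓ - 1) * b) ℓ := by
      rw [Nat.coprime_comm, Nat.Prime.coprime_iff_not_dvd D.hp]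
      intro hdvd
      apply hne
      have e1 : a + (ℓ - 1) * b + b = a + ℓ * b := by
        obtain ⟨k, hk⟩ : ∃ k, ℓ = k + 1 := ⟨ℓ - 1, by omega⟩
        rw [hk, Nat.add_sub_cancel]; ring
      have e2 : a + ℓ * b ≡ a [MOD ℓ] := by simp [Nat.ModEq]
      have e3 : a + (ℓ - 1) * b + b ≡ 0 + b [MOD ℓ] :=
        Nat.ModEq.add_right _ ((Nat.modEq_zero_iff_dvd).2 hdvd)
      rw [e1, zero_add] at e3
      exact e2.symm.trans e3
    refine Pw.of_pow hcop hℓ1 hvδ0 ?_
    rw [pow_add, h4, mul_assoc, ← pow_add]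
    have e1 : b + (ℓ - 1) * b = b * ℓ := by
      obtain ⟨k, hk⟩ : ∃ k, ℓ = k + 1 := ⟨ℓ - 1, by omega⟩
      rw [hk, Nat.add_sub_cancel]; ring
    rw [e1, pow_mul]
    exact (Pw.pow _).mul (Pw.pow _)

end

end Pool.Agent.J6H65.ST
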