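import Pool.Agent.J6H65.ST.Lft
import Pool.Agent.J6H65.ST.Twp

/-!
The second layer: the lifts of the automorphisms act trivially.
-/

set_option autoImplicit false
set_option linter.all false

open Polynomial IsDedekindDomain

namespace Pool.Agent.J6H65.ST

open Pool.Agent.Y713.SE Pool.Agent.Y713.SE.Dat
open Pool.Agent.TH115.GD (pl Preserves Comp Sep exists_conj lift restr preserves val_poly
  exists_restrict)

section tor
variable {ℓ n : ℕ} {K : Type} [Field K] {D : Dat ℓ n K}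
variable {L L' : Type} [Field L] [Algebra K L] [Field L'] [Algebra K L'] [IsSepClosed L]

theorem exists_PT {y : ClassGroup (D.base L).A} (hy : (D.base L).phi y = 1) :
    ∃ m : Fin n → ℕ, y = cl ((D.base L).PT m) := by
  obtain ⟨p, hp⟩ := ExpChar.exists L
  haveI := hp
  obtain ⟨m', hm'⟩ := (D.base L).phi_ker (p := p) (phi_eq_one_iff.1 hy)
  exact ⟨m', by rw [hm', ← cl_PT]⟩

theorem mC_tor (φ : L →ₐ[K] L) {y : ClassGroup (D.base L).A} (hy : (D.base L).phi y = 1) :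
    D.mC φ y = y := by
  obtain ⟨m, rfl⟩ := exists_PT hy
  rw [D.mC_PT]

theorem mC_tor_inj (φ : L →ₐ[K] L') {y : ClassGroup (D.base L).A} (hy : (D.base L).phi y = 1)
    (h : D.mC φ y = 1) : y = 1 := by
  obtain ⟨m, rfl⟩ := exists_PT hy
  rw [D.mC_PT] at h
  have h0 : cl ((D.base L').PT (fun _ => 0)) = 1 :=
    (D.base L').cl_PT_of_modEq (fun i j => Nat.ModEq.refl _)
  rw [← h0] at h
  apply (D.base L).cl_PT_of_modEq
  intro i j
  have := (D.base L').PT_indep h i j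
  simpa using this

theorem phi_PT (m : Fin n → ℕ) : (D.base L).phi (cl ((D.base L).PT m)) = 1 := by
  rw [phi_eq_one_iff, sC_cl _ ((D.base L).PT_ne _), sI_PT]

end tor

section glob
variable {ℓ n : ℕ} {k' K F Ω : Type} [Field k'] [Field K] [Field F] [Algebra k'[X] F]
  [IsFractionRing k'[X] F] [Algebra K F] [Field Ω] [Algebra F Ω] [Algebra K Ω]
  [IsScalarTower K F Ω] [IsGalois F Ω] [IsSepClosed Ω] {D : Dat ℓ n K}
  {v : HeightOneSpectrum k'[X]}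
  (hS : ∃ S : LS ℓ (Comp k'[X] F v) (Sep (Comp k'[X] F v)), TwP D S)

include hS in
theorem gtw2 {z : ClassGroup (D.base Ω).A} (hz : ∀ σ : Ω ≃ₐ[F] Ω, D.mC (rs K σ) z = z)
    (h2 : (D.base Ω).phi ((D.base Ω).phi z) = 1) : (D.base Ω).phi z = 1 := by
  obtain ⟨S, hS⟩ := hS
  let ι : Ω →ₐ[F] Sep (Comp k'[X] F v) := IsSepClosed.lift
  obtain ⟨p, hp⟩ := ExpChar.exists (Sep (Comp k'[X] F v))
  haveI := hp
  have h3 : (D.base (Sep (Comp k'[X] F v))).phi (D.mC (ι.restrictScalars K) z) = 1 := by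
    refine tw2 (p := p) hS (fun τ => ?_) ?_
    · obtain ⟨σ, hσ⟩ := exists_restrict (F := F) (Ω := Ω) (L := Comp k'[X] F v)
        (Ω' := Sep (Comp k'[X] F v)) ι τ
      have e1 : (ι.restrictScalars K).comp (rs K σ) = (rs K τ).comp (ι.restrictScalars K) :=
        AlgHom.ext fun x => (hσ x).symm
      rw [mC_mC, ← e1, ← mC_mC, hz]
    · rw [← mC_phi, ← mC_phi, h2, map_one]
  rw [← mC_phi] at h3
  exact mC_tor_inj _ h2 h3

include hS in
theorem gtw3 {z : ClassGroup (D.base Ω).A} (hz : ∀ σ : Ω ≃ₐ[F] Ω, D.mC (rs K σ) z = z)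
    (h2 : (D.base Ω).phi ((D.base Ω).phi ((D.base Ω).phi z)) = 1) : (D.base Ω).phi z = 1 := by
  apply gtw2 hS hz
  apply gtw2 hS (fun σ => ?_) h2
  rw [mC_phi, hz]

end glob

section cmp
variable {ℓ n : ℕ} {K F Ω : Type} [Field K] [Field F] [Algebra K F] [Field Ω] [Algebra F Ω]
  [Algebra K Ω] [IsScalarTower K F Ω] [IsGalois F Ω] [IsSepClosed Ω] {D : Dat ℓ n K}

/-- `Q` compares the cocycle `b` with its conjugate by `τ` -/
def Cmp (b : (Ω ≃ₐ[F] Ω) → ClassGroup (D.base Ω).A) (τ : Ω ≃ₐ[K] Ω)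
    (Q : ClassGroup (D.base Ω).A) : Prop :=
  ∀ σ σ' : Ω ≃ₐ[F] Ω, (∀ x, τ (σ' x) = σ (τ x)) →
    D.mC (au τ) (b σ') = b σ * (D.mC (rs K σ) Q / Q)

variable {b : (Ω ≃ₐ[F] Ω) → ClassGroup (D.base Ω).A}

theorem Cmp.uniq (hN : Preserves K F Ω) {τ : Ω ≃ₐ[K] Ω} {Q Q' : ClassGroup (D.base Ω).A}
    (h : Cmp (D := D) b τ Q) (h' : Cmp (D := D) b τ Q') (σ : Ω ≃ₐ[F] Ω) :
    D.mC (rs K σ) (Q / Q') = Q / Q' := by
  obtain ⟨σ', hσ'⟩ := exists_conj hN τ σ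
  have h1 := h σ σ' hσ'
  rw [h' σ σ' hσ'] at h1
  have h2 := mul_left_cancel h1
  rw [_root_.map_div]
  generalize D.mC (rs K σ) Q = a at *
  generalize D.mC (rs K σ) Q' = a' at *
  rw [div_eq_div_iff_mul_eq_mul] at h2 ⊢
  rw [mul_comm Q a', ← h2.symm, mul_comm]

theorem Cmp.mul (hN : Preserves K F Ω) {τ τ' : Ω ≃ₐ[K] Ω} {Q Q' : ClassGroup (D.base Ω).A}
    (h : Cmp (D := D) b τ Q) (h' : Cmp (D := D) b τ' Q') :
    Cmp (D := D) b (τ * τ') (Q * D.mC (au τ) Q') := by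
  intro σ σ'' hσ
  obtain ⟨σ', hσ'⟩ := exists_conj hN τ σ
  have h2 : ∀ x, τ' (σ'' x) = σ' (τ' x) := by
    intro x
    apply τ.injective
    rw [hσ']
    exact hσ x
  have e1 := h' σ' σ'' h2
  have e2 := h σ σ' hσ'
  have e3 : D.mC (au (τ * τ')) (b σ'') = D.mC (au τ) (D.mC (au τ') (b σ'')) :=
    D.mC_mul_au τ τ' (b σ'')
  have e0 : (au τ).comp (rs K σ') = (rs K σ).comp (au τ) := AlgHom.ext fun x => hσ' x
  have e4 : D.mC (au τ) (D.mC (rs K σ') Q') = D.mC (rs K σ) (D.mC (au τ) Q') := by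
    rw [mC_mC, mC_mC, e0]
  rw [e3, e1, map_mul, e2, _root_.map_div, e4, map_mul]
  apply Additive.ofMul.injective
  simp only [ofMul_mul, ofMul_div, ofMul_inv, ofMul_one]
  abel

theorem Cmp.self (hb : D.CocF b) (σ0 : Ω ≃ₐ[F] Ω) :
    Cmp (D := D) b (σ0.restrictScalars K) (b σ0) := by
  intro σ σ' h
  have h1 : σ0 * σ' = σ * σ0 := AlgEquiv.ext h
  have h2 := hb.2 σ0 σ'
  rw [h1, hb.2] at h2
  have e1 : au (σ0.restrictScalars K) = rs K σ0 := AlgHom.ext fun x => rfl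
  rw [e1]
  generalize D.mC (rs K σ0) (b σ') = x at *
  generalize D.mC (rs K σ) (b σ0) = y at *
  rw [← mul_div_assoc, h2]
  apply Additive.ofMul.injective
  simp only [ofMul_mul, ofMul_div, ofMul_inv, ofMul_one]
  abel

theorem Cmp.cob {τ : Ω ≃ₐ[K] Ω} {Q : ClassGroup (D.base Ω).A} (h : Cmp (D := D) b τ Q)
    (R : ClassGroup (D.base Ω).A) :
    Cmp (D := D) (fun σ => b σ / (D.mC (rs K σ) R / R)) τ (Q * R / D.mC (au τ) R) := by
  intro σ σ' hσ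
  have e0 : (au τ).comp (rs K σ') = (rs K σ).comp (au τ) := AlgHom.ext fun x => hσ x
  have e4 : D.mC (au τ) (D.mC (rs K σ') R) = D.mC (rs K σ) (D.mC (au τ) R) := by
    rw [mC_mC, mC_mC, e0]
  show D.mC (au τ) (b σ' / (D.mC (rs K σ') R / R)) = b σ / (D.mC (rs K σ) R / R) * _
  rw [_root_.map_div, h σ σ' hσ, _root_.map_div, e4, _root_.map_div, map_mul]
  apply Additive.ofMul.injective
  simp only [ofMul_mul, ofMul_div, ofMul_inv, ofMul_one]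
  abel

theorem Cmp.loc {E Ω' : Type} [Field E] [Algebra K E] [Field Ω'] [Algebra K Ω'] [Algebra E Ω']
    [Algebra F E] [Algebra F Ω'] [IsScalarTower K E Ω'] [IsScalarTower K F Ω'] [IsScalarTower F E Ω']
    [IsScalarTower K F E] [IsGalois E Ω']
    {ι : Ω →ₐ[F] Ω'} {P : ClassGroup (D.base Ω').A}
    (hP : ∀ (ρ : Ω' ≃ₐ[E] Ω') (σ : Ω ≃ₐ[F] Ω), (∀ x : Ω, ρ (ι x) = ι (σ x)) →
      D.mC (ι.restrictScalars K) (b σ) = D.mC (rs K ρ) P / P)
    {g : E ≃+* E} {φ : Ω' ≃ₐ[K] Ω'} {τ : Ω ≃ₐ[K] Ω}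
    (hφ : ∀ x, φ (algebraMap E _ x) = algebraMap E _ (g x))
    (hτ : ∀ x, φ (ι x) = ι (τ x)) {Q : ClassGroup (D.base Ω).A} (h : Cmp (D := D) b τ Q)
    (ρ : Ω' ≃ₐ[E] Ω') :
    D.mC (rs K ρ) (D.mC (φ : Ω' →ₐ[K] Ω') P / P / D.mC (ι.restrictScalars K) Q) =
      D.mC (φ : Ω' →ₐ[K] Ω') P / P / D.mC (ι.restrictScalars K) Q := by
  -- the conjugate automorphism
  let e : Ω' ≃+* Ω' := (φ.toRingEquiv.trans ρ.toRingEquiv).trans φ.symm.toRingEquiv
  have he : ∀ x, e (algebraMap E Ω' x) = algebraMap E Ω' x := by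
    intro x
    show φ.symm (ρ (φ (algebraMap E Ω' x))) = algebraMap E Ω' x
    rw [hφ, ρ.commutes, ← hφ, AlgEquiv.symm_apply_apply]
  let ρ' : Ω' ≃ₐ[E] Ω' := AlgEquiv.ofRingEquiv (f := e) he
  have hρ' : ∀ x, φ (ρ' x) = ρ (φ x) := fun x => φ.apply_symm_apply _
  obtain ⟨σ, hσ⟩ := exists_restrict (F := F) (Ω := Ω) (L := E) (Ω' := Ω') ι ρ
  obtain ⟨σ', hσ'⟩ := exists_restrict (F := F) (Ω := Ω) (L := E) (Ω' := Ω') ι ρ'
  have hc : ∀ x, τ (σ' x) = σ (τ x) := by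
    intro x
    apply ι.toRingHom.injective
    show ι (τ (σ' x)) = ι (σ (τ x))
    rw [← hτ, ← hσ', hρ', hτ, hσ]
  have h1 := h σ σ' hc
  have h2 := hP ρ σ hσ
  have h3 := hP ρ' σ' hσ'
  have c1 : (rs K ρ).comp (φ : Ω' →ₐ[K] Ω') = (φ : Ω' →ₐ[K] Ω').comp (rs K ρ') :=
    AlgHom.ext fun x => (hρ' x).symm
  have c2 : (φ : Ω' →ₐ[K] Ω').comp (ι.restrictScalars K) = (ι.restrictScalars K).comp (au τ) :=
    AlgHom.ext fun x => hτ x
  have c3 : (rs K ρ).comp (ι.restrictScalars K) = (ι.restrictScalars K).comp (rs K σ) :=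
    AlgHom.ext fun x => hσ x
  have e1 : D.mC (rs K ρ) (D.mC (φ : Ω' →ₐ[K] Ω') P) =
      D.mC (φ : Ω' →ₐ[K] Ω') (D.mC (rs K ρ') P) := by
    rw [mC_mC, mC_mC, c1]
  have e2 : D.mC (φ : Ω' →ₐ[K] Ω') (D.mC (ι.restrictScalars K) (b σ')) =
      D.mC (ι.restrictScalars K) (D.mC (au τ) (b σ')) := by
    rw [mC_mC, mC_mC, c2]
  have e3 : D.mC (rs K ρ) (D.mC (ι.restrictScalars K) Q) =
      D.mC (ι.restrictScalars K) (D.mC (rs K σ) Q) := by
    rw [mC_mC, mC_mC, c3]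
  have h4 := congrArg (D.mC (φ : Ω' →ₐ[K] Ω')) h3
  rw [e2, h1, map_mul, _root_.map_div, h2, _root_.map_div] at h4
  rw [_root_.map_div, _root_.map_div, e1, e3]
  generalize D.mC (ι.restrictScalars K) (D.mC (rs K σ) Q) = a at *
  generalize D.mC (ι.restrictScalars K) Q = a' at *
  generalize D.mC (rs K ρ) P = c at *
  generalize D.mC (φ : Ω' →ₐ[K] Ω') (D.mC (rs K ρ') P) = d at *
  generalize D.mC (φ : Ω' →ₐ[K] Ω') P = d' at *
  have e4 : d = c / P * (a / a') * d' := by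
    rw [h4, div_mul_cancel]
  rw [e4]
  apply Additive.ofMul.injective
  simp only [ofMul_mul, ofMul_div, ofMul_inv, ofMul_one]
  abel

end cmp

end Pool.Agent.J6H65.ST
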