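import Pool.Agent.Y713.TG.Stm

/-!
# Definitions

The invariant classes on the surface without its fibre at infinity, the Tate-Shafarevich group over
`K = k(t)` and the points over `K`, for the Jacobian `J` of the curve `y ^ ℓ = f(x)` over `K`.
-/

set_option autoImplicit false
set_option linter.all false

open Polynomial IsDedekindDomain

namespace Pool.Agent.J6H65.ST

open Pool.Agent.TH115.GD (incl Sep Comp)
open Pool.Agent.Y713.Tate (J mapJ cob IsCoc IsTC IsInv LocTriv TateAt)

section geo

variable (ℓ : ℕ) {K F : Type} [Field K] [Field F] [Algebra K F] (k' : Type) [Field k']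
  [Algebra k'[X] F] [IsFractionRing k'[X] F] (f : K[X])

/-- Let `c` be any cocycle of `Gal(Sep F / F)` with values in the Tate module `T_ℓ J`, `F = k'(t)`,
which is trivial over the completions of `F` at all the closed points of the affine line over `k'` (there
is no condition at `t = ∞`) and whose class in `H ^ 1 (F, V_ℓ J)` is fixed by the Galois group of `K`.
Then `c` comes from the points of order `ℓ` in `J(K)`: modulo each `ℓ ^ N` it is the coboundary of an
element `R` such that `ℓ ^ N R` is a point `P` in `J(K)` with `ℓ P = 0`. In particular `ℓ c` is the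
coboundary of `ℓ R`, an element of order `ℓ ^ N`, and the class of `c` in `H ^ 1 (F, V_ℓ J)` is zero. -/
def NoClasses : Prop :=
  ∀ c : ℕ → (Sep F ≃ₐ[F] Sep F) → J ℓ f (Sep F), IsTC ℓ f c →
    (∀ (n : ℕ) (v : HeightOneSpectrum k'[X]),
      LocTriv ℓ f (Comp k'[X] F v) (Sep (Comp k'[X] F v)) (c n)) →
    IsInv ℓ f c → ∀ N : ℕ,
      ∃ (P : J ℓ f K) (R : J ℓ f (Sep F)), ℓ • P = 0 ∧
        ℓ ^ N • R = mapJ ℓ f (incl K K (Sep F)) P ∧ ∀ τ, c N τ = cob ℓ f R τ

variable {ℓ k' f}

theorem NoClasses.tateAt (h : NoClasses (F := F) ℓ k' f) : TateAt (F := F) ℓ k' f := by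
  intro c hc N
  obtain ⟨P, R, -, h1, h2⟩ := h c hc.tc (fun n v => (hc.loc n).1 v) hc.inv N
  exact ⟨P, R, h1, h2⟩

end geo

section arith

variable (ℓ : ℕ) {K : Type} [Field K] (k : Type) [Field k] [Algebra k[X] K] [IsFractionRing k[X] K]
  (f : K[X])

/-- The classes of `ℓ`-power order in `H ^ 1 (K, J)`, `K = k(t)`, which are trivial over the completions
of `K` at all the closed points of the affine line over `k` are zero: every continuous cocycle `c` of
`Gal(Sep K / K)` with values in `J(Sep K)` which is a coboundary over these completions and such that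
`ℓ ^ m c` is a coboundary for some `m` is a coboundary. -/
def ShaTrivial : Prop :=
  ∀ c : (Sep K ≃ₐ[K] Sep K) → J ℓ f (Sep K), IsCoc ℓ f c →
    (∀ v : HeightOneSpectrum k[X], LocTriv ℓ f (Comp k[X] K v) (Sep (Comp k[X] K v)) c) →
    ∀ (m : ℕ) (Q : J ℓ f (Sep K)), (∀ τ, ℓ ^ m • c τ = cob ℓ f Q τ) →
      ∃ R : J ℓ f (Sep K), ∀ τ, c τ = cob ℓ f R τ

/-- Every point of `J(K)` is the sum of a point killed by `ℓ` and of `ℓ` times a point, and if `J(K)` is
finitely generated, then it is finite. -/
def PointsTorsion : Prop :=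
  (∀ P : J ℓ f K, ∃ T Q : J ℓ f K, ℓ • T = 0 ∧ P = T + ℓ • Q) ∧
    (AddGroup.FG (J ℓ f K) → Finite (J ℓ f K))

end arith

end Pool.Agent.J6H65.ST
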