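import Pool.Agent.J6H65.ST.Sec
import Pool.Agent.J6H65.ST.Kmh

/-!
The extension of the class to the Galois group of `K`.
-/

set_option autoImplicit false
set_option linter.all false

open Polynomial IsDedekindDomain

namespace Pool.Agent.J6H65.ST

open Pool.Agent.Y713.SE Pool.Agent.Y713.SE.Dat
open Pool.Agent.TH115.GD (pl Preserves Comp Sep exists_conj lift restr preserves val_poly
  exists_restrict)

section ext
variable {ℓ n : ℕ} {k k' K F Ω : Type} [Field k] [Field k'] [Algebra k k'] [IsSepClosure k k']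
  [Field K] [Algebra k[X] K] [IsFractionRing k[X] K] [Field F] [Algebra k'[X] F]
  [IsFractionRing k'[X] F] [Algebra K F] [Field Ω] [Algebra F Ω] [Algebra K Ω]
  [IsScalarTower K F Ω] [IsSepClosure F Ω] [IsGalois F Ω] [IsGalois K Ω] [IsSepClosed Ω]
  {D : Dat ℓ n K}
  (hKF : ∀ p : k[X], algebraMap K F (algebraMap k[X] K p) =
    algebraMap k'[X] F (p.map (algebraMap k k')))

/-- `τ` acts as `s` on `F` -/
def OvF (τ : Ω ≃ₐ[K] Ω) (s : k' ≃ₐ[k] k') : Prop :=
  ∀ x : F, τ (algebraMap F Ω x) = algebraMap F Ω (eF F s x)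

theorem ovF_of_poly {τ : Ω ≃ₐ[K] Ω} {s : k' ≃ₐ[k] k'}
    (h : ∀ p : k'[X], τ (algebraMap F Ω (algebraMap k'[X] F p)) =
      algebraMap F Ω (algebraMap k'[X] F (p.map (s : k' →+* k')))) : OvF (F := F) τ s := by
  intro x
  obtain ⟨a, d, hd, rfl⟩ := IsFractionRing.div_surjective (A := k'[X]) x
  rw [map_div₀, map_div₀, h, h, map_div₀, map_div₀, eF_poly, eF_poly]

/-- automorphisms over the same automorphism of `F` differ by an automorphism over `F` -/
theorem exists_of_ovF {τ τ' : Ω ≃ₐ[K] Ω} {s : k' ≃ₐ[k] k'} (h : OvF (F := F) τ s)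
    (h' : OvF (F := F) τ' s) : ∃ σ : Ω ≃ₐ[F] Ω, τ' = τ * σ.restrictScalars K := by
  let e : Ω ≃+* Ω := τ'.toRingEquiv.trans τ.symm.toRingEquiv
  have he : ∀ x, e (algebraMap F Ω x) = algebraMap F Ω x := by
    intro x
    show τ.symm (τ' (algebraMap F Ω x)) = algebraMap F Ω x
    rw [h', ← h, AlgEquiv.symm_apply_apply]
  refine ⟨AlgEquiv.ofRingEquiv (f := e) he, AlgEquiv.ext fun x => ?_⟩
  exact (τ.apply_symm_apply _).symm

include hKF in
theorem triv_of_lifts {D1 : k[X]} (hD1 : Irreducible D1) (hK : Kum ℓ D1) {θ : k'}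
    (hθ : aeval θ D1 = 0) (hℓ : (ℓ : k') ≠ 0) {ζ : k} (hζ : IsPrimitiveRoot ζ ℓ)
    {T : (Ω ≃ₐ[K] Ω) → ClassGroup (D.base Ω).A} (hT : ∀ τ τ', T (τ * τ') = T τ * T τ')
    (h1 : ∀ τ, (D.base Ω).phi (T τ) = 1)
    (hG : ∀ σ : Ω ≃ₐ[F] Ω, T (σ.restrictScalars K) = 1)
    (hs : ∀ s : k' ≃ₐ[k] k', s θ = θ → ∃ τ : Ω ≃ₐ[K] Ω, OvF (F := F) τ s ∧ T τ = 1)
    (τ : Ω ≃ₐ[K] Ω) : T τ = 1 := by
  have hov : ∀ {τ τ' : Ω ≃ₐ[K] Ω} {s : k' ≃ₐ[k] k'}, OvF (F := F) τ s → OvF (F := F) τ' s →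
      T τ' = T τ := by
    intro τ τ' s h h'
    obtain ⟨σ, rfl⟩ := exists_of_ovF h h'
    rw [hT, hG, mul_one]
  choose L hL using fun s : k' ≃ₐ[k] k' => lift (Ω := Ω) hKF s
  have hL' : ∀ s, OvF (F := F) (L s) s := fun s => ovF_of_poly (hL s)
  choose m hm using fun τ => exists_PT (h1 τ)
  have h0 : cl ((D.base Ω).PT (fun _ => 0)) = 1 :=
    (D.base Ω).cl_PT_of_modEq (fun i j => Nat.ModEq.refl _)
  have hmul : ∀ s t : k' ≃ₐ[k] k', T (L (s * t)) = T (L s) * T (L t) := by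
    intro s t
    rw [← hT]
    refine hov (s := s * t) (fun x => ?_) (hL' _)
    show L s (L t (algebraMap F Ω x)) = _
    rw [hL' t, hL' s]
    congr 1
    obtain ⟨a, d, hd, rfl⟩ := IsFractionRing.div_surjective (A := k'[X]) x
    simp only [map_div₀, eF_poly, Polynomial.map_map]
    rfl
  haveI : IsGalois k k' := inferInstance
  have key : ∀ (s : k' ≃ₐ[k] k') i j, (m (L s) i : ZMod ℓ) - m (L s) j = 0 := by
    intro s i j
    refine kum_hom D.hp hℓ hζ hD1 hK (fun s => (m (L s) i : ZMod ℓ) - m (L s) j) ?_ hθ ?_ s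
    · intro s t
      have h2 := hmul s t
      rw [hm (L (s * t)), hm (L s), hm (L t), cl_PT_add] at h2
      have h3 := (D.base Ω).PT_indep h2 i j
      have h4 := (ZMod.natCast_eq_natCast_iff _ _ _).2 h3
      simp only [Pi.add_apply] at h4
      push_cast at h4
      show (m (L (s * t)) i : ZMod ℓ) - m (L (s * t)) j = (m (L s) i - m (L s) j) +
        (m (L t) i - m (L t) j)
      linear_combination h4
    · intro s hs'
      obtain ⟨τ', h2, h3⟩ := hs s hs'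
      have h4 := hov h2 (hL' s)
      rw [h3, hm (L s), ← h0] at h4
      have h5 := (D.base Ω).PT_indep h4 i j
      have h6 := (ZMod.natCast_eq_natCast_iff _ _ _).2 h5
      simp only [add_zero] at h6
      exact sub_eq_zero.2 h6
  obtain ⟨s, hs'⟩ := restr (k := k) (k' := k') hKF τ
  rw [hov (hL' s) (ovF_of_poly hs'), hm (L s)]
  apply (D.base Ω).cl_PT_of_modEq
  intro i j
  exact (ZMod.natCast_eq_natCast_iff _ _ _).1 (sub_eq_zero.1 (key s i j))

end ext

end Pool.Agent.J6H65.ST
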