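import Pool.Agent.J6H65.ST.No
import Pool.Agent.J6H65.ST.Stm
import Pool.Agent.J6H65.SG.CritR

/-!
The conditions for the tuples, and the final statement over the extensions of the ground field.
-/

set_option autoImplicit false
set_option linter.all false

open Polynomial IsDedekindDomain

namespace Pool.Agent.J6H65.ST

open Pool.Agent.Y713 Pool.Agent.Y713.SE
open Pool.Agent.J6H65.SG
open Pool.Agent.TH115.GD (incl rs ak Sep Comp CompInf IsTower)

section tuple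

variable {k : Type} [Field k] (K : Type) [Field K] [Algebra k[X] K] [IsFractionRing k[X] K]

theorem tuple_cnd {ℓ : ℕ} (hℓ : ℓ.Prime) (hk : (ℓ : k) ≠ 0) {ζ : k} (hζ : IsPrimitiveRoot ζ ℓ)
    {N : ℕ} (hn : ¬ ℓ ∣ N) {g : Fin N → k[X]} (T : Finset k[X])
    (hT : ∀ π ∈ T, Irreducible π ∧ π.Monic)
    (hbad : ∀ i j, i ≠ j → ∀ v : HeightOneSpectrum k[X], (∀ π ∈ T, π ∉ v.asIdeal) →
      g i - g j ∉ v.asIdeal)
    {D : k[X]} (hD2 : Irreducible D) (hD3 : D.Separable)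
    (hD4 : ∀ c : k, (∃ a : k[X], D ∣ C c - a ^ ℓ) → ∃ b : k, c = b ^ ℓ)
    (hDT : ∀ π ∈ T, ¬ D ∣ π)
    (hD5 : ∀ (c : k) (a : k[X] → ℕ) (z : k[X]), c ≠ 0 → D ∣ C c * ∏ π ∈ T, π ^ a π - z ^ ℓ →
      ∀ π ∈ T, ℓ ∣ a π) (he : Function.Injective fun i => algebraMap k[X] K (g i))
    (hδ : algebraMap k[X] K D ≠ 0) :
    Cnd (tDat K hℓ hk hζ hδ he hn) T D := by
  have hsep : ∀ v : HeightOneSpectrum k[X], (∀ π ∈ T, π ∉ v.asIdeal) → ∀ i j, i ≠ j →
      v.valuation K ((tDat K hℓ hk hζ hδ he hn).e i - (tDat K hℓ hk hζ hδ he hn).e j) = 1 := by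
    intro v hv i j hij
    show v.valuation K (algebraMap k[X] K (g i) - algebraMap k[X] K (g j)) = 1
    rw [← map_sub, val_eq_one_iff]
    exact hbad i j hij v hv
  have hvD : ∀ v, v ≠ hp D hD2 → v.valuation K (algebraMap k[X] K D) = 1 := by
    intro v hv
    rw [val_eq_one_iff]
    exact fun hmem => hv (eq_hp hD2 hmem)
  exact
    { irr := hD2
      sep := hD3
      cst := hD4
      mon := hT
      ndvd := hDT
      pws := hD5
      good := fun v hv hne => ⟨hsep v hv, hvD v hne⟩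
      at1 := hsep _ fun π hπ hm => hDT π hπ ((mem_hp hD2 π).1 hm)
      at2 := by
        show ¬ Pw ℓ ((hp D hD2).valuation K (algebraMap k[X] K D))
        rw [val_hp_self]
        exact not_pw_exp hℓ }

end tuple

section final

variable {L L' : Type} [Field L] [Field L'] [Algebra L L']

theorem tate_D {ℓ N : ℕ} (hℓ : ℓ.Prime) (hN : ¬ ℓ ∣ N) {gL : Fin (N + 1) → L[X]}
    (h : Dta ℓ gL) (hkL : (ℓ : L) ≠ 0) {ζ : L} (hζL : IsPrimitiveRoot ζ ℓ) {δ : L} (hδ : δ ≠ 0)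
    {K F : Type} [Field K] [Algebra L[X] K] [Field F] [Algebra L'[X] F]
    [IsFractionRing L'[X] F] [Algebra K F] (hTw : IsTower L L' K F) :
    NoClasses (F := F) ℓ L' (C (algebraMap L[X] K (C δ * gL 0)) *
      ∏ i : Fin N, (X - C (algebraMap L[X] K (gL i.succ)))) := by
  haveI := hTw.sep
  haveI := hTw.fracK
  have he : Function.Injective fun i : Fin N => algebraMap L[X] K (gL i.succ) :=
    (IsFractionRing.injective L[X] K).comp h.inj
  have hδ' : algebraMap L[X] K (C δ * gL 0) ≠ 0 := by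
    rw [Ne, map_eq_zero_iff _ (IsFractionRing.injective L[X] K)]
    exact (irr_cmul hδ h.irr).ne_zero
  have key : Cnd (tDat K hℓ hkL hζL hδ' he hN) (TT L gL) (C δ * gL 0) := tuple_cnd K hℓ hkL hζL hN
    (g := fun i : Fin N => gL i.succ) (TT L gL) h.mon h.bad (irr_cmul hδ h.irr)
    (sep_cmul hδ h.sep) (fun c ⟨a, ha⟩ => h.cst c ⟨a, dvd_of_mul_left_dvd ha⟩)
    (fun π hπ hd => h.ndvd π hπ (dvd_of_mul_left_dvd hd))
    (fun c a z hc hz => h.pws c a z hc (dvd_of_mul_left_dvd hz)) he hδ'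
  intro c h1 h2 h3 m
  have hOT : OT ℓ L' (tDat K hℓ hkL hζL hδ' he hN).f c := by
    refine ⟨⟨fun n => ⟨(h1.coc n).lc, (h1.coc n).mul⟩, h1.zero, h1.step⟩, h2, fun τ => ?_⟩
    obtain ⟨m, Q, hQ, h4⟩ := h3 τ
    exact ⟨m, Q, ⟨hQ.zero, hQ.step⟩, h4⟩
  obtain ⟨P, R, a1, a2, a3⟩ := no_classes0 (F := F) hTw key hkL hζL hOT m
  exact ⟨P, R, a1, a2, a3⟩

end final

end Pool.Agent.J6H65.ST
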