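import Pool.Agent.J6H65.ST.Stm
import Pool.Agent.J6H65.ST.Tup
import Pool.Agent.J6H65.SG.Grp

/-!
Transport of the arithmetic statements.
-/

set_option autoImplicit false
set_option linter.all false

open Polynomial IsDedekindDomain

namespace Pool.Agent.J6H65.ST

open Pool.Agent.Y713 Pool.Agent.Y713.SE
open Pool.Agent.Y713.SE.Dat (au)
open Pool.Agent.TH115.GD (incl ak Sep Comp)
open Pool.Agent.Y160.SE (Jac jm IsCoc LocTriv)

variable {ℓ n : ℕ} {K : Type} [Field K] (D : Dat ℓ n K)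

theorem tj_nsmul {L : Type} [Field L] [Algebra K L] (m : ℕ) (x : Jac ℓ D.f L) :
    D.tj L (m • x) = D.tj L x ^ m := map_pow (D.Te L).symm _ _

theorem rs_au (σ : Sep K ≃ₐ[K] Sep K) : Pool.Agent.TH115.GD.rs K σ = au σ :=
  AlgHom.ext fun x => rfl

theorem sha_tj {k : Type} [Field k] [Algebra k[X] K] [IsFractionRing k[X] K]
    (crit : ∀ χ : (Sep K ≃ₐ[K] Sep K) → Fin n → ℕ,
      D.Coc (fun σ => cl ((D.base (Sep K)).PT (χ σ))) →
      (∀ v : HeightOneSpectrum k[X], D.Triv (Comp k[X] K v) (Sep (Comp k[X] K v))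
          (fun σ => cl ((D.base (Sep K)).PT (χ σ)))) →
      D.Cob (fun σ => cl ((D.base (Sep K)).PT (χ σ))))
    {c : (Sep K ≃ₐ[K] Sep K) → Jac ℓ D.f (Sep K)} (hc : IsCoc ℓ D.f c)
    (hl : ∀ v : HeightOneSpectrum k[X],
      LocTriv ℓ D.f (Comp k[X] K v) (Sep (Comp k[X] K v)) c)
    (m : ℕ) (Q : Jac ℓ D.f (Sep K))
    (hQ : ∀ τ, ℓ ^ m • c τ = jm ℓ D.f (Pool.Agent.TH115.GD.rs K τ) Q - Q) :
    ∃ R, ∀ τ, c τ = jm ℓ D.f (Pool.Agent.TH115.GD.rs K τ) R - R := by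
  obtain ⟨p, hp⟩ := ExpChar.exists K
  haveI := hp
  haveI : ExpChar (Sep K) p :=
    expChar_of_injective_algebraMap (algebraMap K (Sep K)).injective p
  have hcoc : D.Coc (fun σ => D.tj (Sep K) (c σ)) := by
    refine ⟨hc.lc.comp _, fun σ τ => ?_⟩
    show D.tj (Sep K) (c (σ * τ)) = D.tj (Sep K) (c σ) * D.mC (au σ) (D.tj (Sep K) (c τ))
    rw [hc.mul, D.tj_add, D.tj_jm, rs_au]
  have hlt : ∀ v : HeightOneSpectrum k[X], D.Triv (Comp k[X] K v) (Sep (Comp k[X] K v))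
      (fun σ => D.tj (Sep K) (c σ)) := by
    intro v
    obtain ⟨ι, P, h⟩ := hl v
    refine ⟨ι, D.tj _ P, fun τ σ hτσ => ?_⟩
    have h1 := congrArg (D.tj _) (h τ σ hτσ)
    rw [D.tj_jm, D.tj_sub, D.tj_jm] at h1
    exact h1
  have hcob : D.Cob (fun σ => D.tj (Sep K) (c σ) ^ ℓ ^ m) := by
    refine ⟨D.tj _ Q, fun σ => ?_⟩
    have h1 := congrArg (D.tj _) (hQ σ)
    rw [tj_nsmul, D.tj_sub, D.tj_jm, rs_au] at h1
    exact h1
  obtain ⟨R, hR⟩ := D.red (p := p)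
    (LT := fun c => ∀ v : HeightOneSpectrum k[X], D.Triv (Comp k[X] K v)
      (Sep (Comp k[X] K v)) c)
    (fun c Q h v => (h v).div D Q) (fun c h v => (h v).phi D) crit hcoc hlt m hcob
  obtain ⟨R', hR'⟩ := D.tj_surj (Sep K) R
  refine ⟨R', fun τ => ?_⟩
  apply D.tj_inj
  rw [D.tj_sub, D.tj_jm, hR', rs_au]
  exact hR τ

section final

variable {L : Type} [Field L]

theorem sha_D {ℓ N : ℕ} (hℓ : ℓ.Prime) (hN : ¬ ℓ ∣ N) {gL : Fin (N + 1) → L[X]}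
    (h : SG.Dta ℓ gL) (hkL : (ℓ : L) ≠ 0) {ζ : L} (hζL : IsPrimitiveRoot ζ ℓ) {δ : L}
    (hδ : δ ≠ 0) (K : Type) [Field K] [Algebra L[X] K] [IsFractionRing L[X] K] :
    ShaTrivial ℓ L (C (algebraMap L[X] K (C δ * gL 0)) *
      ∏ i : Fin N, (X - C (algebraMap L[X] K (gL i.succ)))) ∧
    PointsTorsion ℓ (C (algebraMap L[X] K (C δ * gL 0)) *
      ∏ i : Fin N, (X - C (algebraMap L[X] K (gL i.succ)))) := by
  have he : Function.Injective fun i : Fin N => algebraMap L[X] K (gL i.succ) :=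
    (IsFractionRing.injective L[X] K).comp h.inj
  have hδ' : algebraMap L[X] K (C δ * gL 0) ≠ 0 := by
    rw [Ne, map_eq_zero_iff _ (IsFractionRing.injective L[X] K)]
    exact (SG.irr_cmul hδ h.irr).ne_zero
  have key := SG.tuple_key K hℓ hkL hζL hN (g := fun i : Fin N => gL i.succ) (SG.TT L gL) h.mon
    h.bad (D := C δ * gL 0) (SG.irr_cmul hδ h.irr)
    (fun c ⟨a, ha⟩ => h.cst c ⟨a, dvd_of_mul_left_dvd ha⟩)
    (fun π hπ hd => h.ndvd π hπ (dvd_of_mul_left_dvd hd))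
    (fun c a z hc hz => h.pws c a z hc (dvd_of_mul_left_dvd hz)) he hδ' (L := Sep K)
    (fun v : HeightOneSpectrum L[X] => SeparableClosure (v.adicCompletion K))
  have key2 := SG.tuple_points K hℓ hkL hζL hN (g := fun i : Fin N => gL i.succ) (SG.TT L gL) h.mon
    h.bad (D := C δ * gL 0) (SG.irr_cmul hδ h.irr)
    (fun c ⟨a, ha⟩ => h.cst c ⟨a, dvd_of_mul_left_dvd ha⟩)
    (fun π hπ hd => h.ndvd π hπ (dvd_of_mul_left_dvd hd))
    (fun c a z hc hz => h.pws c a z hc (dvd_of_mul_left_dvd hz)) he hδ'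
  obtain ⟨DD, hDD⟩ : ∃ DD : Dat ℓ N K, DD = tDat K hℓ hkL hζL hδ' he hN := ⟨_, rfl⟩
  have hf : DD.f = C (algebraMap L[X] K (C δ * gL 0)) *
      ∏ i : Fin N, (X - C (algebraMap L[X] K (gL i.succ))) := by
    rw [hDD]
    rfl
  rw [← hf]
  rw [← hDD] at key key2
  constructor
  · intro c h1 h2 m Q hQ
    exact sha_tj DD (k := L) (fun χ h3 h4 => by
      obtain ⟨m, Q, -, hQ⟩ := key χ h3 h4
      exact ⟨Q, hQ⟩) (c := c) ⟨h1.lc, h1.mul⟩ h2 m Q hQ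
  · have h5 : ∀ P : Jac ℓ DD.f K, ∃ T Q : Jac ℓ DD.f K, ℓ • T = 0 ∧ P = T + ℓ • Q := by
      intro P
      obtain ⟨t, y, ht, hy⟩ := key2 (DD.tj K P)
      obtain ⟨T, hT⟩ := DD.tj_surj K t
      obtain ⟨Q, hQ⟩ := DD.tj_surj K y
      refine ⟨T, Q, ?_, ?_⟩
      · apply DD.tj_inj
        rw [tj_nsmul, hT, ht, DD.tj_zero]
      · apply DD.tj_inj
        rw [DD.tj_add, tj_nsmul, hT, hQ, ← hy]
    exact ⟨h5, fun hfg => SG.finite_of_add hℓ h5 hfg⟩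

end final

end Pool.Agent.J6H65.ST
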